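import Pool.Agent.Helper39.BR.Local
set_option autoImplicit false
open Complex MeasureTheory Metric Set Filter Topology
open scoped Real ENNReal ComplexConjugate NNReal

/-! Comparison of a logarithmic potential at two points. -/

namespace Pool.Agent.Helper39.BR

theorem log_sub_le {A B : ℂ} (hA : 0 < A.re) (hB : 0 < B.re) {c : ℝ} (_hc : 0 ≤ c)
    (h1 : ‖A‖ ≤ Real.exp c * ‖B‖) (h2 : ‖B‖ ≤ Real.exp c * ‖A‖) :
    ‖Complex.log A - Complex.log B‖ ≤ c + π := by
  have hA0 : 0 < ‖A‖ := norm_pos_iff.mpr (fun h => by rw [h] at hA; simp at hA)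
  have hB0 : 0 < ‖B‖ := norm_pos_iff.mpr (fun h => by rw [h] at hB; simp at hB)
  calc _ ≤ |(Complex.log A - Complex.log B).re| + |(Complex.log A - Complex.log B).im| :=
        Complex.norm_le_abs_re_add_abs_im _
    _ ≤ c + π := by
      apply add_le_add
      · rw [Complex.sub_re, Complex.log_re, Complex.log_re, abs_le]
        have h3 := Real.log_le_log hA0 h1
        have h4 := Real.log_le_log hB0 h2
        rw [Real.log_mul (Real.exp_pos c).ne' hB0.ne', Real.log_exp] at h3
        rw [Real.log_mul (Real.exp_pos c).ne' hA0.ne', Real.log_exp] at h4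
        constructor <;> linarith
      · rw [Complex.sub_im, Complex.log_im, Complex.log_im]
        have h3 := Complex.abs_arg_lt_pi_div_two_iff.mpr (Or.inl hA)
        have h4 := Complex.abs_arg_lt_pi_div_two_iff.mpr (Or.inl hB)
        rw [abs_lt] at h3 h4
        rw [abs_le]
        constructor <;> linarith [h3.1, h3.2, h4.1, h4.2]

theorem re_one_sub_pos {w : ℂ} (hw : ‖w‖ < 1) : 0 < (1 - w).re := by
  have := (abs_le.mp (Complex.abs_re_le_norm w)).2
  rw [Complex.sub_re, Complex.one_re]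
  linarith

/-- pointwise comparison -/
theorem point_compare {ρ t : ℝ} (hρ0 : 0 < ρ) (hρ1 : ρ < 1) (ht : 2 * (1 - ρ) ≤ t) (ht1 : t ≤ 1)
    {x y e : ℂ} (hx : ‖x‖ = 1) (hy : ‖y‖ = 1) (he : ‖e‖ = 1) (hye : ‖1 - y * e‖ ≤ 2 * t)
    {c : ℝ} (hc : Real.log 13 ≤ c)
    (h : t < ‖1 - x * e‖ ∨ t < 4 * (1 - ρ) ∨ 2 / (1 - ρ) ≤ Real.exp c) :
    ‖Complex.log (1 - x * (ρ * e)) - Complex.log (1 - x * ((1 - t : ℝ) * conj y))‖ ≤ c + π := by
  have ht0 : 0 < t := by linarith
  have hc0 : 0 ≤ c := le_trans (Real.log_nonneg (by norm_num)) hc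
  have h13 : 13 ≤ Real.exp c := by
    calc (13:ℝ) = Real.exp (Real.log 13) := (Real.exp_log (by norm_num)).symm
      _ ≤ _ := Real.exp_le_exp.mpr hc
  have hyy : conj y * y = 1 := by
    rw [mul_comm, Complex.mul_conj, Complex.normSq_eq_norm_sq, hy]; simp
  set A : ℂ := 1 - x * (ρ * e) with hA
  set B : ℂ := 1 - x * ((1 - t : ℝ) * conj y) with hB
  have hn1 : ‖x * (ρ * e)‖ = ρ := by
    rw [norm_mul, norm_mul, hx, he, Complex.norm_real, Real.norm_eq_abs, abs_of_pos hρ0]; ring
  have hn2 : ‖x * ((1 - t : ℝ) * conj y)‖ = 1 - t := by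
    rw [norm_mul, norm_mul, hx, RCLike.norm_conj, hy, Complex.norm_real, Real.norm_eq_abs,
      abs_of_nonneg (by linarith)]; ring
  have hAre : 0 < A.re := re_one_sub_pos (by rw [hn1]; exact hρ1)
  have hBre : 0 < B.re := re_one_sub_pos (by rw [hn2]; linarith)
  have hAB : ‖A - B‖ ≤ 3 * t := by
    have e1 : A - B = x * (((1 - t : ℝ) : ℂ) * conj y * (1 - y * e) +
        (((1 - t) - ρ : ℝ) : ℂ) * e) := by
      rw [hA, hB]
      push_cast
      linear_combination (x * (1 - t) * e) * hyy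
    rw [e1, norm_mul, hx, one_mul]
    calc _ ≤ ‖((1 - t : ℝ) : ℂ) * conj y * (1 - y * e)‖ + ‖(((1 - t) - ρ : ℝ) : ℂ) * e‖ :=
          norm_add_le _ _
      _ ≤ 1 * (2 * t) + t := by
        apply add_le_add
        · rw [norm_mul, norm_mul, RCLike.norm_conj, hy, mul_one, Complex.norm_real, Real.norm_eq_abs]
          apply mul_le_mul _ hye (norm_nonneg _) one_pos.le
          rw [abs_le]
          constructor <;> linarith
        · rw [norm_mul, he, mul_one, Complex.norm_real, Real.norm_eq_abs, abs_le]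
          constructor <;> linarith
      _ = 3 * t := by ring
  have hBlow : t ≤ ‖B‖ := by
    have := norm_sub_norm_le (1:ℂ) (x * ((1 - t : ℝ) * conj y))
    rw [norm_one, hn2] at this
    linarith
  have hAlow : 1 - ρ ≤ ‖A‖ := by
    have := norm_sub_norm_le (1:ℂ) (x * (ρ * e))
    rw [norm_one, hn1] at this
    linarith
  have hA0 : 0 ≤ ‖A‖ := norm_nonneg _
  have hB0 : 0 ≤ ‖B‖ := norm_nonneg _
  have hAup : ‖A‖ ≤ ‖B‖ + 3 * t := by
    have := norm_sub_norm_le A B
    linarith
  have hBup : ‖B‖ ≤ ‖A‖ + 3 * t := by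
    have := norm_sub_norm_le B A
    rw [norm_sub_rev B A] at this
    linarith
  apply log_sub_le hAre hBre hc0
  · nlinarith
  · rcases h with h | h | h
    · -- far away point
      have h1 : ‖1 - x * e‖ ≤ 2 * ‖A‖ := by
        have e2 : 1 - x * e = A - ((1 - ρ : ℝ) : ℂ) * (x * e) := by
          rw [hA]; push_cast; ring
        rw [e2]
        calc _ ≤ ‖A‖ + ‖((1 - ρ : ℝ) : ℂ) * (x * e)‖ := norm_sub_le _ _
          _ = ‖A‖ + (1 - ρ) := by
            rw [norm_mul, norm_mul, hx, he, Complex.norm_real, Real.norm_eq_abs,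
              abs_of_pos (by linarith)]; ring
          _ ≤ _ := by linarith
      nlinarith
    · nlinarith
    · have h1 : ‖B‖ ≤ 2 := by
        calc ‖B‖ ≤ ‖(1:ℂ)‖ + ‖x * ((1 - t : ℝ) * conj y)‖ := norm_sub_le _ _
          _ ≤ 2 := by rw [norm_one, hn2]; linarith
      have h2 : 0 < 1 - ρ := by linarith
      rw [div_le_iff₀ h2] at h
      nlinarith [Real.exp_pos c]

section

variable (m : Measure ℂ) (g : ℂ → ℂ)

/-- the logarithmic potential -/
noncomputable def pot (ζ : ℂ) : ℂ := ∫ x, g x * Complex.log (1 - x * ζ) ∂m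

variable {m g}

theorem integrable_pot [IsFiniteMeasure m] (hm : ∀ᵐ x ∂m, ‖x‖ = 1) (hg : AEStronglyMeasurable g m)
    (hg1 : ∀ᵐ x ∂m, ‖g x‖ ≤ 1) {ζ : ℂ} (hζ : ζ ∈ ball (0:ℂ) 1) :
    Integrable (fun x => g x * Complex.log (1 - x * ζ)) m := by
  rw [mem_ball, dist_zero_right] at hζ
  have hmeas : Measurable (fun x : ℂ => Complex.log (1 - x * ζ)) := by fun_prop
  have hb : ∀ᵐ x ∂m, ‖g x * Complex.log (1 - x * ζ)‖ ≤ Real.log 2 + Real.log (1 / (1 - ‖ζ‖)) + π := by
    filter_upwards [hm, hg1] with x hx hgx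
    have h1 : ‖x * ζ‖ = ‖ζ‖ := by rw [norm_mul, hx, one_mul]
    have hre : 0 < (1 - x * ζ).re := re_one_sub_pos (by rw [h1]; exact hζ)
    have hlow : 1 - ‖ζ‖ ≤ ‖1 - x * ζ‖ := by
      have := norm_sub_norm_le (1:ℂ) (x * ζ)
      rw [norm_one, h1] at this
      exact this
    have hup : ‖1 - x * ζ‖ ≤ 2 := by
      calc _ ≤ ‖(1:ℂ)‖ + ‖x * ζ‖ := norm_sub_le _ _
        _ ≤ 2 := by rw [norm_one, h1]; linarith
    have hpos : 0 < 1 - ‖ζ‖ := by linarith
    have h2 : ‖Complex.log (1 - x * ζ)‖ ≤ Real.log 2 + Real.log (1 / (1 - ‖ζ‖)) + π := by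
      calc _ ≤ |(Complex.log (1 - x * ζ)).re| + |(Complex.log (1 - x * ζ)).im| :=
            Complex.norm_le_abs_re_add_abs_im _
        _ ≤ _ := by
          apply add_le_add
          · rw [Complex.log_re, abs_le]
            have h3 := Real.log_le_log (by linarith) hup
            have h4 := Real.log_le_log hpos hlow
            have h5 : 0 ≤ Real.log 2 := Real.log_nonneg (by norm_num)
            have h6 : Real.log (1 / (1 - ‖ζ‖)) = - Real.log (1 - ‖ζ‖) := by
              rw [one_div, Real.log_inv]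
            have h7 : Real.log (1 - ‖ζ‖) ≤ 0 := Real.log_nonpos hpos.le (by linarith [norm_nonneg ζ])
            rw [h6]
            constructor <;> linarith
          · rw [Complex.log_im]
            have h3 := Complex.abs_arg_lt_pi_div_two_iff.mpr (Or.inl hre)
            have := Real.pi_pos
            linarith
    calc _ = ‖g x‖ * ‖Complex.log (1 - x * ζ)‖ := norm_mul _ _
      _ ≤ 1 * ‖Complex.log (1 - x * ζ)‖ := by gcongr
      _ ≤ _ := by rw [one_mul]; exact h2
  exact Integrable.mono' (integrable_const _) (hg.mul hmeas.aestronglyMeasurable) hb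

/-- comparison of the potentials, general scale -/
theorem pot_compare [IsFiniteMeasure m] (hm : ∀ᵐ x ∂m, ‖x‖ = 1) (hg : AEStronglyMeasurable g m)
    (hg1 : ∀ᵐ x ∂m, ‖g x‖ ≤ 1) {K : ℝ} (hK : m.real univ ≤ K) {ρ t : ℝ} (hρ0 : 0 < ρ) (hρ1 : ρ < 1)
    (ht : 2 * (1 - ρ) ≤ t) (ht1 : t ≤ 1) {y e : ℂ} (hy : ‖y‖ = 1) (he : ‖e‖ = 1)
    (hye : ‖1 - y * e‖ ≤ 2 * t) {η S : ℝ} (hη : 0 ≤ η) (hS0 : 0 ≤ S)
    (hS : 1 / (1 - ρ) ≤ 2 * Real.exp S)
    (h : m.real {x | ‖1 - x * e‖ ≤ t} ≤ η ∨ t < 4 * (1 - ρ)) :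
    ‖pot m g (ρ * e) - pot m g ((1 - t : ℝ) * conj y)‖ ≤
      K * (Real.log 13 + π) + η * (S + 2 * Real.log 2) := by
  have hz1 : (ρ * e : ℂ) ∈ ball (0:ℂ) 1 := by
    rw [mem_ball, dist_zero_right, norm_mul, he, mul_one, Complex.norm_real, Real.norm_eq_abs,
      abs_of_pos hρ0]
    exact hρ1
  have hz2 : (((1 - t : ℝ) : ℂ) * conj y) ∈ ball (0:ℂ) 1 := by
    rw [mem_ball, dist_zero_right, norm_mul, RCLike.norm_conj, hy, mul_one, Complex.norm_real,
      Real.norm_eq_abs, abs_of_nonneg (by linarith)]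
    linarith
  have hS1 : 0 ≤ S + 2 * Real.log 2 := by
    have := Real.log_nonneg (show (1:ℝ) ≤ 2 by norm_num)
    linarith
  have h13 : 0 ≤ Real.log 13 + π := by
    have := Real.log_nonneg (show (1:ℝ) ≤ 13 by norm_num)
    linarith [Real.pi_pos]
  have hsub : pot m g (ρ * e) - pot m g ((1 - t : ℝ) * conj y) =
      ∫ x, g x * (Complex.log (1 - x * (ρ * e)) - Complex.log (1 - x * ((1 - t : ℝ) * conj y))) ∂m := by
    unfold pot
    rw [← integral_sub (integrable_pot hm hg hg1 hz1) (integrable_pot hm hg hg1 hz2)]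
    congr 1
    funext x
    ring
  rw [hsub]
  have hfin : (∫ x, (Real.log 13 + π : ℝ) ∂m) ≤ K * (Real.log 13 + π) := by
    rw [integral_const, smul_eq_mul]
    gcongr
  rcases h with h | h
  · -- the mass of the small ball is small
    set s : Set ℂ := {x | ‖1 - x * e‖ ≤ t} with hs
    have hsm : MeasurableSet s := (isClosed_le (by fun_prop) continuous_const).measurableSet
    have hb : ∀ᵐ x ∂m, ‖g x * (Complex.log (1 - x * (ρ * e)) -
        Complex.log (1 - x * ((1 - t : ℝ) * conj y)))‖ ≤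
        (Real.log 13 + π) + s.indicator (fun _ => S + 2 * Real.log 2) x := by
      filter_upwards [hm, hg1] with x hx hgx
      have key : ‖Complex.log (1 - x * (ρ * e)) - Complex.log (1 - x * ((1 - t : ℝ) * conj y))‖ ≤
          (Real.log 13 + π) + s.indicator (fun _ => S + 2 * Real.log 2) x := by
        by_cases hxs : x ∈ s
        · rw [indicator_of_mem hxs]
          have h1 := point_compare (c := Real.log 13 + (S + 2 * Real.log 2)) hρ0 hρ1 ht ht1 hx hy he
            hye (by linarith) (Or.inr (Or.inr ?_))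
          · linarith
          · have e1 : Real.exp (Real.log 13 + (S + 2 * Real.log 2)) = 13 * (Real.exp S * 4) := by
              rw [Real.exp_add, Real.exp_add, Real.exp_log (by norm_num), two_mul, Real.exp_add,
                Real.exp_log (by norm_num)]
              norm_num
            rw [e1]
            have e2 : 2 / (1 - ρ) = 2 * (1 / (1 - ρ)) := by ring
            rw [e2]
            nlinarith [Real.exp_pos S]
        · rw [indicator_of_notMem hxs]
          have h1 := point_compare (c := Real.log 13) hρ0 hρ1 ht ht1 hx hy he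
            hye le_rfl (Or.inl (not_le.mp hxs))
          linarith
      calc _ = ‖g x‖ * ‖Complex.log (1 - x * (ρ * e)) -
            Complex.log (1 - x * ((1 - t : ℝ) * conj y))‖ := norm_mul _ _
        _ ≤ 1 * ‖Complex.log (1 - x * (ρ * e)) -
            Complex.log (1 - x * ((1 - t : ℝ) * conj y))‖ := by gcongr
        _ ≤ _ := by rw [one_mul]; exact key
    have hint : Integrable (fun x => (Real.log 13 + π) +
        s.indicator (fun _ => S + 2 * Real.log 2) x) m :=
      (integrable_const _).add ((integrable_const _).indicator hsm)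
    refine (norm_integral_le_of_norm_le hint hb).trans ?_
    rw [integral_add (integrable_const _) ((integrable_const _).indicator hsm)]
    apply add_le_add hfin
    rw [integral_indicator_const _ hsm, smul_eq_mul]
    gcongr
  · have hb : ∀ᵐ x ∂m, ‖g x * (Complex.log (1 - x * (ρ * e)) -
        Complex.log (1 - x * ((1 - t : ℝ) * conj y)))‖ ≤ (Real.log 13 + π) := by
      filter_upwards [hm, hg1] with x hx hgx
      have key := point_compare (c := Real.log 13) hρ0 hρ1 ht ht1 hx hy he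
            hye le_rfl (Or.inr (Or.inl h))
      calc _ = ‖g x‖ * ‖Complex.log (1 - x * (ρ * e)) -
            Complex.log (1 - x * ((1 - t : ℝ) * conj y))‖ := norm_mul _ _
        _ ≤ 1 * ‖Complex.log (1 - x * (ρ * e)) -
            Complex.log (1 - x * ((1 - t : ℝ) * conj y))‖ := by gcongr
        _ ≤ _ := by rw [one_mul]; exact key
    refine (norm_integral_le_of_norm_le (integrable_const _) hb).trans ?_
    have : 0 ≤ η * (S + 2 * Real.log 2) := mul_nonneg hη hS1
    linarith

end

end Pool.Agent.Helper39.BR
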