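import Pool.Agent.Helper39.BR.Compare
set_option autoImplicit false
open Complex MeasureTheory Metric Set Filter Topology
open scoped Real ENNReal ComplexConjugate NNReal

/-! The size of the level sets. -/

namespace Pool.Agent.Helper39.BR

/-- the standing assumptions on the decomposition `H = pot + U` -/
structure Dec (K : ℝ) (m : Measure ℂ) (g U H : ℂ → ℂ) : Prop where
  fin : IsFiniteMeasure m
  mass : m.real univ ≤ K
  circ : ∀ᵐ x ∂m, ‖x‖ = 1
  meas : AEStronglyMeasurable g m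
  bdd : ∀ᵐ x ∂m, ‖g x‖ ≤ 1
  diffU : DifferentiableOn ℂ U (ball 0 1)
  strip : ∃ e : ℂ, ‖e‖ = 1 ∧ ∃ s : ℝ, ∀ ζ ∈ ball (0:ℂ) 1, |(e * U ζ).im - s| ≤ π / 2
  diffH : DifferentiableOn ℂ H (ball 0 1)
  eq : ∀ ζ ∈ ball (0:ℂ) 1, H ζ = (∫ x, g x * Complex.log (1 - x * ζ) ∂m) + U ζ
  gol : ∀ ζ ∈ ball (0:ℂ) 1, ‖H ζ‖ ≤ Real.log (1 / (1 - ‖ζ‖ ^ 2))

/-- the constant of the local estimate -/
noncomputable def Cp (p : ℝ) : ℝ := 144 * π * Real.exp (p * π) / Real.cos (p * (π / 2))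

theorem Cp_pos {p : ℝ} (hp0 : 0 < p) (hp1 : p < 1) : 0 < Cp p := by
  have hcos : 0 < Real.cos (p * (π / 2)) := by
    apply Real.cos_pos_of_mem_Ioo
    have := Real.pi_pos
    constructor <;> nlinarith
  unfold Cp
  positivity

/-- Markov inequality for the function `U` at scale one -/
theorem vol_zero {p : ℝ} (hp0 : 0 < p) (hp1 : p < 1) {U : ℂ → ℂ}
    (hU : DifferentiableOn ℂ U (ball 0 1)) {e : ℂ} (he : ‖e‖ = 1)
    {s : ℝ} (hs : ∀ ζ ∈ ball (0:ℂ) 1, |(e * U ζ).im - s| ≤ π / 2) {ρ : ℝ} (hρ : 1 / 2 ≤ ρ)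
    (hρ1 : ρ < 1) (lam : ℝ) :
    volume {θ : ℝ | θ ∈ Ioc 0 (2 * π) ∧ lam ≤ ‖U (circleMap 0 ρ θ) - U 0‖} ≤
      ENNReal.ofReal (Cp p * Real.exp (-(p * lam))) := by
  have hρ0 : 0 < ρ := by linarith
  have h1 := local_est (t := 1) hp0 hp1 hU he hs hρ hρ1 (by linarith) le_rfl (x := 1) (by simp)
  have harc : Ioc 0 (2 * π) ∩ arc 1 1 = Ioc 0 (2 * π) := by
    apply inter_eq_self_of_subset_left
    intro θ _
    show ‖1 - 1 * Complex.exp (θ * I)‖ ≤ 2 * 1
    calc _ ≤ ‖(1:ℂ)‖ + ‖1 * Complex.exp (θ * I)‖ := norm_sub_le _ _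
      _ = 2 * 1 := by rw [one_mul, norm_one, Complex.norm_exp_ofReal_mul_I]; norm_num
  rw [harc] at h1
  simp only [sub_self, Complex.ofReal_zero, zero_mul, mul_one] at h1
  have hsub : closedBall (0:ℂ) ρ ⊆ ball 0 1 := closedBall_subset_ball hρ1
  have hUc : Continuous (fun θ : ℝ => U (circleMap 0 ρ θ)) := by
    apply (hU.continuousOn).comp_continuous (continuous_circleMap 0 ρ)
    intro θ
    apply hsub
    exact sphere_subset_closedBall (circleMap_mem_sphere 0 hρ0.le θ)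
  have hfc : Continuous (fun θ : ℝ => Real.exp (p * ‖U (circleMap 0 ρ θ) - U 0‖)) :=
    Real.continuous_exp.comp (continuous_const.mul (hUc.sub continuous_const).norm)
  have h2 := mul_meas_ge_le_lintegral₀ (μ := volume.restrict (Ioc 0 (2 * π)))
    (hfc.measurable.ennreal_ofReal.aemeasurable) (ENNReal.ofReal (Real.exp (p * lam)))
  have h3 : volume {θ : ℝ | θ ∈ Ioc 0 (2 * π) ∧ lam ≤ ‖U (circleMap 0 ρ θ) - U 0‖} ≤
      (volume.restrict (Ioc 0 (2 * π))) {θ | ENNReal.ofReal (Real.exp (p * lam)) ≤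
        ENNReal.ofReal (Real.exp (p * ‖U (circleMap 0 ρ θ) - U 0‖))} := by
    rw [Measure.restrict_apply' measurableSet_Ioc]
    apply measure_mono
    rintro θ ⟨hθ, hl⟩
    refine ⟨?_, hθ⟩
    apply ENNReal.ofReal_le_ofReal
    apply Real.exp_le_exp.mpr
    gcongr
  have h4 : ENNReal.ofReal (Real.exp (p * lam)) *
      volume {θ : ℝ | θ ∈ Ioc 0 (2 * π) ∧ lam ≤ ‖U (circleMap 0 ρ θ) - U 0‖} ≤
      ENNReal.ofReal (Cp p) := by
    calc _ ≤ _ := by gcongr
      _ ≤ _ := h2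
      _ ≤ _ := h1
  have h5 : ENNReal.ofReal (Real.exp (-(p * lam))) * ENNReal.ofReal (Real.exp (p * lam)) = 1 := by
    rw [← ENNReal.ofReal_mul (Real.exp_pos _).le, ← Real.exp_add]
    simp
  calc volume {θ : ℝ | θ ∈ Ioc 0 (2 * π) ∧ lam ≤ ‖U (circleMap 0 ρ θ) - U 0‖}
      = ENNReal.ofReal (Real.exp (-(p * lam))) * (ENNReal.ofReal (Real.exp (p * lam)) *
        volume {θ : ℝ | θ ∈ Ioc 0 (2 * π) ∧ lam ≤ ‖U (circleMap 0 ρ θ) - U 0‖}) := by
        rw [← mul_assoc, h5, one_mul]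
    _ ≤ ENNReal.ofReal (Real.exp (-(p * lam))) * ENNReal.ofReal (Cp p) := by gcongr
    _ = _ := by
        rw [← ENNReal.ofReal_mul (Real.exp_pos _).le]
        congr 1; ring

/-- Tonelli and Markov at scale `t`: heavy points -/
theorem vol_heavy {p : ℝ} (hp0 : 0 < p) (hp1 : p < 1) {U : ℂ → ℂ}
    (hU : DifferentiableOn ℂ U (ball 0 1)) {e : ℂ} (he : ‖e‖ = 1)
    {s : ℝ} (hs : ∀ ζ ∈ ball (0:ℂ) 1, |(e * U ζ).im - s| ≤ π / 2) {ρ t : ℝ} (hρ : 1 / 2 ≤ ρ)
    (hρ1 : ρ < 1) (ht : 2 * (1 - ρ) ≤ t) (ht1 : t ≤ 1) (lam : ℝ)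
    {m : Measure ℂ} [IsFiniteMeasure m] (hm : ∀ᵐ x ∂m, ‖x‖ = 1) {K : ℝ} (hK : m.real univ ≤ K)
    {η : ℝ} (hη : 0 < η) :
    volume {θ : ℝ | θ ∈ Ioc 0 (2 * π) ∧ η ≤ m.real {x | ‖1 - x * Complex.exp (θ * I)‖ ≤ 2 * t} ∧
      ∀ x : ℂ, ‖x‖ = 1 → ‖1 - x * Complex.exp (θ * I)‖ ≤ 2 * t →
        lam ≤ ‖U (circleMap 0 ρ θ) - U ((1 - t : ℝ) * conj x)‖} ≤
      ENNReal.ofReal (K / η * Cp p * t * Real.exp (-(p * lam))) := by
  classical
  have ht0 : 0 < t := by linarith
  have hρ0 : 0 < ρ := by linarith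
  have hCp := Cp_pos hp0 hp1
  have hK0 : 0 ≤ K := le_trans measureReal_nonneg hK
  have hsub : closedBall (0:ℂ) ρ ⊆ ball 0 1 := closedBall_subset_ball hρ1
  have hUc : Continuous (fun θ : ℝ => U (circleMap 0 ρ θ)) := by
    apply (hU.continuousOn).comp_continuous (continuous_circleMap 0 ρ)
    intro θ
    apply hsub
    exact sphere_subset_closedBall (circleMap_mem_sphere 0 hρ0.le θ)
  set W : ℂ → ℂ := (ball (0:ℂ) 1).piecewise U 0 with hW
  have hWm : Measurable W :=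
    hU.continuousOn.measurable_piecewise continuousOn_const measurableSet_ball
  have hWU : ∀ x : ℂ, ‖x‖ = 1 → W ((1 - t : ℝ) * conj x) = U ((1 - t : ℝ) * conj x) := by
    intro x hx
    apply piecewise_eq_of_mem
    rw [mem_ball, dist_zero_right, norm_mul, RCLike.norm_conj, hx, mul_one, Complex.norm_real,
      Real.norm_eq_abs, abs_of_nonneg (by linarith)]
    linarith
  set A : Set (ℝ × ℂ) := {z | ‖1 - z.2 * Complex.exp (z.1 * I)‖ ≤ 2 * t} with hA
  have hAm : MeasurableSet A := (isClosed_le (by fun_prop) continuous_const).measurableSet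
  set f : ℝ × ℂ → ℝ≥0∞ := A.indicator (fun z => ENNReal.ofReal
    (Real.exp (p * ‖U (circleMap 0 ρ z.1) - W ((1 - t : ℝ) * conj z.2)‖ - p * lam))) with hf
  have hfm : Measurable f := by
    apply Measurable.indicator _ hAm
    apply Measurable.ennreal_ofReal
    apply Real.measurable_exp.comp
    apply Measurable.sub_const
    apply Measurable.const_mul
    apply Measurable.norm
    apply Measurable.sub
    · exact hUc.measurable.comp measurable_fst
    · apply hWm.comp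
      apply Measurable.const_mul
      exact Complex.continuous_conj.measurable.comp measurable_snd
  -- the inner integral over θ
  have hin : ∀ x : ℂ, ‖x‖ = 1 → ∫⁻ θ in Ioc 0 (2 * π), f (θ, x) ≤
      ENNReal.ofReal (Cp p * t * Real.exp (-(p * lam))) := by
    intro x hx
    have h1 : ∫⁻ θ in Ioc 0 (2 * π), f (θ, x) =
        ∫⁻ θ in Ioc 0 (2 * π) ∩ arc x t, ENNReal.ofReal (Real.exp (-(p * lam))) * ENNReal.ofReal
          (Real.exp (p * ‖U (circleMap 0 ρ θ) - U ((1 - t : ℝ) * conj x)‖)) := by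
      rw [inter_comm, ← Measure.restrict_restrict (measurableSet_arc x t),
        ← lintegral_indicator (measurableSet_arc x t)]
      congr 1
      funext θ
      by_cases hθ : θ ∈ arc x t
      · rw [indicator_of_mem hθ, hf, indicator_of_mem (show (θ, x) ∈ A from hθ)]
        simp only
        rw [hWU x hx, sub_eq_add_neg, Real.exp_add, mul_comm,
          ENNReal.ofReal_mul (Real.exp_pos _).le]
      · rw [indicator_of_notMem hθ, hf, indicator_of_notMem (show (θ, x) ∉ A from hθ)]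
    rw [h1, lintegral_const_mul' _ _ ENNReal.ofReal_ne_top]
    calc _ ≤ ENNReal.ofReal (Real.exp (-(p * lam))) * ENNReal.ofReal
          (144 * π * Real.exp (p * π) / Real.cos (p * (π / 2)) * t) := by
          gcongr
          exact local_est hp0 hp1 hU he hs hρ hρ1 ht ht1 hx
      _ = _ := by
          rw [← ENNReal.ofReal_mul (Real.exp_pos _).le]
          congr 1
          unfold Cp
          ring
  have hswap : ∫⁻ (θ : ℝ) in Ioc 0 (2 * π), ∫⁻ (x : ℂ), f (θ, x) ∂m =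
      ∫⁻ (x : ℂ), (∫⁻ (θ : ℝ) in Ioc 0 (2 * π), f (θ, x)) ∂m :=
    lintegral_lintegral_swap (f := fun (θ : ℝ) (x : ℂ) => f (θ, x)) hfm.aemeasurable
  have hout : ∫⁻ (x : ℂ), (∫⁻ (θ : ℝ) in Ioc 0 (2 * π), f (θ, x)) ∂m ≤
      ENNReal.ofReal (Cp p * t * Real.exp (-(p * lam)) * K) := by
    calc _ ≤ ∫⁻ _, ENNReal.ofReal (Cp p * t * Real.exp (-(p * lam))) ∂m := by
          apply lintegral_mono_ae
          filter_upwards [hm] with x hx
          exact hin x hx
      _ = ENNReal.ofReal (Cp p * t * Real.exp (-(p * lam))) * m univ := lintegral_const _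
      _ ≤ ENNReal.ofReal (Cp p * t * Real.exp (-(p * lam))) * ENNReal.ofReal K := by
          gcongr
          rw [← ofReal_measureReal (μ := m) (s := univ)]
          exact ENNReal.ofReal_le_ofReal hK
      _ = _ := by rw [← ENNReal.ofReal_mul (by positivity)]
  have hΨm : Measurable (fun θ : ℝ => ∫⁻ (x : ℂ), f (θ, x) ∂m) := hfm.lintegral_prod_right'
  have hmarkov := mul_meas_ge_le_lintegral₀ (μ := volume.restrict (Ioc 0 (2 * π)))
    hΨm.aemeasurable (ENNReal.ofReal η)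
  have hincl : volume {θ : ℝ | θ ∈ Ioc 0 (2 * π) ∧
      η ≤ m.real {x | ‖1 - x * Complex.exp (θ * I)‖ ≤ 2 * t} ∧
      ∀ x : ℂ, ‖x‖ = 1 → ‖1 - x * Complex.exp (θ * I)‖ ≤ 2 * t →
        lam ≤ ‖U (circleMap 0 ρ θ) - U ((1 - t : ℝ) * conj x)‖} ≤
      (volume.restrict (Ioc 0 (2 * π))) {θ | ENNReal.ofReal η ≤ ∫⁻ x, f (θ, x) ∂m} := by
    rw [Measure.restrict_apply' measurableSet_Ioc]
    apply measure_mono
    rintro θ ⟨hθ, hη', hall⟩
    refine ⟨?_, hθ⟩
    set B : Set ℂ := {x | ‖1 - x * Complex.exp (θ * I)‖ ≤ 2 * t} with hB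
    have hBm : MeasurableSet B := (isClosed_le (by fun_prop) continuous_const).measurableSet
    calc ENNReal.ofReal η ≤ m B := by
          rw [← ofReal_measureReal (μ := m) (s := B)]
          exact ENNReal.ofReal_le_ofReal hη'
      _ = ∫⁻ x, B.indicator (fun _ => (1:ℝ≥0∞)) x ∂m := by
          rw [lintegral_indicator hBm, setLIntegral_one]
      _ ≤ ∫⁻ x, f (θ, x) ∂m := by
          apply lintegral_mono_ae
          filter_upwards [hm] with x hx
          by_cases hxB : x ∈ B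
          · rw [indicator_of_mem hxB, hf, indicator_of_mem (show (θ, x) ∈ A from hxB)]
            simp only
            rw [hWU x hx, ENNReal.one_le_ofReal]
            apply Real.one_le_exp
            have := hall x hx hxB
            nlinarith
          · rw [indicator_of_notMem hxB]
            exact zero_le
  have hη' : ENNReal.ofReal η⁻¹ * ENNReal.ofReal η = 1 := by
    rw [← ENNReal.ofReal_mul (by positivity), inv_mul_cancel₀ hη.ne']
    simp
  calc _ ≤ _ := hincl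
    _ = ENNReal.ofReal η⁻¹ * (ENNReal.ofReal η *
        (volume.restrict (Ioc 0 (2 * π))) {θ | ENNReal.ofReal η ≤ ∫⁻ x, f (θ, x) ∂m}) := by
        rw [← mul_assoc, hη', one_mul]
    _ ≤ ENNReal.ofReal η⁻¹ * ENNReal.ofReal (Cp p * t * Real.exp (-(p * lam)) * K) := by
        gcongr
        refine hmarkov.trans ?_
        rw [hswap]
        exact hout
    _ = _ := by
        rw [← ENNReal.ofReal_mul (by positivity)]
        congr 1
        field_simp

end Pool.Agent.Helper39.BR
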