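import Pool.Agent.Helper39.BR.Level
set_option autoImplicit false
open Complex MeasureTheory Metric Set Filter Topology
open scoped Real ENNReal ComplexConjugate NNReal

/-! The size of the level sets: stopping scale. -/

namespace Pool.Agent.Helper39.BR

theorem geom_bound {r : ℝ} (hr0 : 0 ≤ r) (hr1 : r < 1) (J : ℕ) :
    ∑ j ∈ Finset.Icc 1 J, r ^ j ≤ 1 / (1 - r) := by
  calc ∑ j ∈ Finset.Icc 1 J, r ^ j ≤ ∑ j ∈ Finset.range (J + 1), r ^ j := by
        apply Finset.sum_le_sum_of_subset_of_nonneg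
        · intro j hj
          rw [Finset.mem_Icc] at hj
          rw [Finset.mem_range]
          omega
        · intro j _ _
          positivity
    _ ≤ 1 / (1 - r) := by
        have h1 : 0 < 1 - r := by linarith
        have h2 : 0 ≤ r ^ (J + 1) := pow_nonneg hr0 _
        rw [geom_sum_eq hr1.ne, ← neg_sub 1 (r ^ (J + 1)), ← neg_sub 1 r, neg_div_neg_eq]
        gcongr
        linarith

theorem level_set {K p : ℝ} (hp0 : 0 < p) (hp1 : p < 1) {m : Measure ℂ} {g U H : ℂ → ℂ}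
    (D : Dec K m g U H) {ρ : ℝ} (hρ : 7 / 8 ≤ ρ) (hρ1 : ρ < 1) (k : ℝ) {η : ℝ} (hη0 : 0 < η)
    (hη1 : η ≤ 1) :
    volume {θ : ℝ | θ ∈ Ioc 0 (2 * π) ∧ k ≤ ‖H (circleMap 0 ρ θ)‖} ≤
      ENNReal.ofReal (Cp p * Real.exp (p * ((K * (Real.log 13 + π) + 2) +
        η * Real.log (1 / (1 - ρ ^ 2)))) * Real.exp (-(p * k)) *
        (1 + K / η * (1 / (1 - Real.exp (-((1 - p) * Real.log 2)))))) := by
  classical
  obtain ⟨hfin, hmass, hcirc, hmeas, hbdd, hdU, ⟨e, he, s, hs⟩, hdH, heq, hgol⟩ := D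
  have hρ0 : 0 < ρ := by linarith
  have hδ : 0 < 1 - ρ := by linarith
  have hK0 : 0 ≤ K := le_trans measureReal_nonneg hmass
  have hCp := Cp_pos hp0 hp1
  set S : ℝ := Real.log (1 / (1 - ρ ^ 2)) with hS
  have h1ρ : 0 < 1 - ρ ^ 2 := by nlinarith
  have hS0 : 0 ≤ S := by
    apply Real.log_nonneg
    rw [le_div_iff₀ h1ρ]
    nlinarith
  have hexpS : Real.exp S = 1 / (1 - ρ ^ 2) := Real.exp_log (by positivity)
  have hS2 : 1 / (1 - ρ) ≤ 2 * Real.exp S := by
    rw [hexpS, mul_one_div, div_le_div_iff₀ hδ h1ρ]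
    nlinarith
  set CK : ℝ := K * (Real.log 13 + π) + 2 with hCK
  have hlog2 : Real.log 2 ≤ 1 := by
    have := Real.log_two_lt_d9
    linarith
  have hlog20 : 0 < Real.log 2 := Real.log_pos (by norm_num)
  obtain ⟨J, hJ1, hJ2⟩ := exists_nat_pow_near_of_lt_one (x := 2 * (1 - ρ)) (y := (1/2 : ℝ))
    (by linarith) (by linarith) (by norm_num) (by norm_num)
  have hJ1' : (1/2 : ℝ) ^ J < 4 * (1 - ρ) := by
    rw [pow_succ] at hJ1
    linarith
  -- scales
  have htJ : ∀ j ≤ J, 2 * (1 - ρ) ≤ (1/2 : ℝ) ^ j := by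
    intro j hj
    refine hJ2.trans ?_
    exact pow_le_pow_of_le_one (by norm_num) (by norm_num) hj
  have ht1 : ∀ j : ℕ, (1/2 : ℝ) ^ j ≤ 1 := fun j => pow_le_one₀ (by norm_num) (by norm_num)
  have ht0 : ∀ j : ℕ, (0:ℝ) < (1/2 : ℝ) ^ j := fun j => by positivity
  set M : ℕ → ℝ → ℝ := fun j θ => m.real {x | ‖1 - x * Complex.exp (θ * I)‖ ≤ 2 * (1/2 : ℝ) ^ j}
    with hM
  set lam : ℕ → ℝ := fun j => k - j * Real.log 2 - CK - η * S with hlam
  -- comparison
  have hcmp : ∀ (θ : ℝ) (j : ℕ), j ≤ J → (∀ i, j < i → i ≤ J → M i θ < η) →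
      ∀ y : ℂ, ‖y‖ = 1 → ‖1 - y * Complex.exp (θ * I)‖ ≤ 2 * (1/2 : ℝ) ^ j →
      k ≤ ‖H (circleMap 0 ρ θ)‖ →
      lam j ≤ ‖U (circleMap 0 ρ θ) - U ((1 - (1/2 : ℝ) ^ j : ℝ) * conj y)‖ := by
    intro θ j hj hlight y hy hye hk
    have he1 : ‖Complex.exp (θ * I)‖ = 1 := Complex.norm_exp_ofReal_mul_I θ
    have hcirc1 : circleMap 0 ρ θ = ρ * Complex.exp (θ * I) := circleMap_zero ρ θ
    have hmemρ : circleMap 0 ρ θ ∈ ball (0:ℂ) 1 := by
      rw [mem_ball, dist_zero_right, norm_circleMap_zero, abs_of_pos hρ0]; exact hρ1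
    set z0 : ℂ := ((1 - (1/2 : ℝ) ^ j : ℝ) : ℂ) * conj y with hz0
    have hz0n : ‖z0‖ = 1 - (1/2 : ℝ) ^ j := by
      rw [hz0, norm_mul, RCLike.norm_conj, hy, mul_one, Complex.norm_real,
        Real.norm_eq_abs, abs_of_nonneg (by linarith [ht1 j])]
    have hmem0 : z0 ∈ ball (0:ℂ) 1 := by
      rw [mem_ball, dist_zero_right, hz0n]; linarith [ht0 j]
    have hsmall : m.real {x | ‖1 - x * Complex.exp (θ * I)‖ ≤ (1/2 : ℝ) ^ j} ≤ η ∨
        (1/2 : ℝ) ^ j < 4 * (1 - ρ) := by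
      by_cases hjJ : j = J
      · right; rw [hjJ]; exact hJ1'
      · left
        have h1 := hlight (j + 1) (Nat.lt_succ_self j) (by omega)
        have h2 : 2 * (1/2 : ℝ) ^ (j + 1) = (1/2 : ℝ) ^ j := by rw [pow_succ]; ring
        simp only [hM] at h1
        rw [h2] at h1
        exact h1.le
    have hG := pot_compare hcirc hmeas hbdd hmass hρ0 hρ1 (htJ j hj) (ht1 j) hy he1 hye hη0.le
      hS0 hS2 hsmall
    rw [← hcirc1] at hG
    have hHρ := heq _ hmemρ
    have hH0 := heq _ hmem0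
    have hHz : ‖H z0‖ ≤ j * Real.log 2 := by
      refine (hgol z0 hmem0).trans ?_
      rw [hz0n]
      have h1 : (1/2 : ℝ) ^ j ≤ 1 - (1 - (1/2 : ℝ) ^ j) ^ 2 := by nlinarith [ht0 j, ht1 j]
      have h2 : Real.log (1 / (1 - (1 - (1/2 : ℝ) ^ j) ^ 2)) ≤ Real.log ((2:ℝ) ^ j) := by
        apply Real.log_le_log
        · have := ht0 j
          have h3 : 0 < 1 - (1 - (1/2 : ℝ) ^ j) ^ 2 := by linarith
          positivity
        · rw [div_le_iff₀ (by linarith [ht0 j])]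
          have h3 : (2:ℝ) ^ j * (1/2 : ℝ) ^ j = 1 := by
            rw [← mul_pow]; norm_num
          calc (1:ℝ) = (2:ℝ) ^ j * (1/2 : ℝ) ^ j := h3.symm
            _ ≤ _ := by gcongr
      rw [Real.log_pow] at h2
      exact h2
    have hη2 : η * (S + 2 * Real.log 2) ≤ η * S + 2 := by nlinarith
    have hdiff : U (circleMap 0 ρ θ) - U z0 = (H (circleMap 0 ρ θ) - H z0) -
        (pot m g (circleMap 0 ρ θ) - pot m g z0) := by
      rw [hHρ, hH0]
      unfold pot
      ring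
    rw [hdiff]
    have h5 := norm_sub_norm_le (H (circleMap 0 ρ θ) - H z0)
      (pot m g (circleMap 0 ρ θ) - pot m g z0)
    have h6 := norm_sub_norm_le (H (circleMap 0 ρ θ)) (H z0)
    simp only [hlam, hCK]
    linarith
  set E : Set ℝ := {θ : ℝ | θ ∈ Ioc 0 (2 * π) ∧ k ≤ ‖H (circleMap 0 ρ θ)‖} with hE
  set A0 : Set ℝ := {θ : ℝ | θ ∈ Ioc 0 (2 * π) ∧ lam 0 ≤ ‖U (circleMap 0 ρ θ) - U 0‖} with hA0
  set A : ℕ → Set ℝ := fun j => {θ : ℝ | θ ∈ Ioc 0 (2 * π) ∧
      η ≤ m.real {x | ‖1 - x * Complex.exp (θ * I)‖ ≤ 2 * (1/2 : ℝ) ^ j} ∧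
      ∀ x : ℂ, ‖x‖ = 1 → ‖1 - x * Complex.exp (θ * I)‖ ≤ 2 * (1/2 : ℝ) ^ j →
        lam j ≤ ‖U (circleMap 0 ρ θ) - U ((1 - (1/2 : ℝ) ^ j : ℝ) * conj x)‖} with hA
  have hcover : E ⊆ A0 ∪ ⋃ j ∈ Finset.Icc 1 J, A j := by
    rintro θ ⟨hθ, hk⟩
    set P : ℕ → Prop := fun j => η ≤ M j θ with hP
    have hmax : ∀ i, Nat.findGreatest P J < i → i ≤ J → M i θ < η := by
      intro i hi hiJ
      exact not_le.mp (Nat.findGreatest_is_greatest hi hiJ)
    have hle : Nat.findGreatest P J ≤ J := Nat.findGreatest_le J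
    by_cases h0 : Nat.findGreatest P J = 0
    · left
      refine ⟨hθ, ?_⟩
      have h1 := hcmp θ 0 (Nat.zero_le _) (by rw [← h0]; exact hmax) (conj (Complex.exp (θ * I)))
        (by rw [RCLike.norm_conj]; exact Complex.norm_exp_ofReal_mul_I θ) ?_ hk
      · simpa using h1
      · have h2 : conj (Complex.exp (θ * I)) * Complex.exp (θ * I) = 1 := by
          rw [mul_comm, Complex.mul_conj, Complex.normSq_eq_norm_sq, Complex.norm_exp_ofReal_mul_I]
          simp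
        rw [h2, sub_self, norm_zero]
        positivity
    · right
      simp only [mem_iUnion]
      refine ⟨Nat.findGreatest P J, Finset.mem_Icc.mpr ⟨Nat.one_le_iff_ne_zero.mpr h0, hle⟩, hθ, ?_, ?_⟩
      · exact Nat.findGreatest_of_ne_zero (P := P) rfl h0
      · intro x hx hxe
        exact hcmp θ _ hle hmax x hx hxe hk
  set X : ℝ := Cp p * Real.exp (p * (CK + η * S)) * Real.exp (-(p * k)) with hX
  have hX0 : 0 ≤ X := by positivity
  set r : ℝ := Real.exp (-((1 - p) * Real.log 2)) with hr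
  have hr0 : 0 ≤ r := (Real.exp_pos _).le
  have hr1 : r < 1 := by
    rw [hr, Real.exp_lt_one_iff]
    nlinarith
  have hv0 : volume A0 ≤ ENNReal.ofReal X := by
    refine (vol_zero hp0 hp1 hdU he hs (by linarith) hρ1 (lam 0)).trans ?_
    apply ENNReal.ofReal_le_ofReal
    rw [hX, mul_assoc, ← Real.exp_add]
    apply le_of_eq
    congr 2
    simp only [hlam]
    push_cast
    ring
  have hvj : ∀ j ∈ Finset.Icc 1 J, volume (A j) ≤ ENNReal.ofReal (K / η * X * r ^ j) := by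
    intro j hj
    rw [Finset.mem_Icc] at hj
    refine (vol_heavy hp0 hp1 hdU he hs (by linarith) hρ1 (htJ j hj.2) (ht1 j) (lam j) hcirc hmass
      hη0).trans ?_
    apply ENNReal.ofReal_le_ofReal
    have h1 : (1/2 : ℝ) ^ j = Real.exp (-(j * Real.log 2)) := by
      rw [Real.exp_neg, Real.exp_nat_mul, Real.exp_log (by norm_num), one_div, inv_pow]
    have h2 : r ^ j = Real.exp (j * (-((1 - p) * Real.log 2))) := by
      rw [Real.exp_nat_mul]
    rw [h1, h2, hX]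
    apply le_of_eq
    have h3 : Real.exp (-(j * Real.log 2)) * Real.exp (-(p * lam j)) =
        Real.exp (p * (CK + η * S)) * Real.exp (-(p * k)) *
          Real.exp (j * (-((1 - p) * Real.log 2))) := by
      rw [← Real.exp_add, ← Real.exp_add, ← Real.exp_add]
      congr 1
      simp only [hlam]
      ring
    linear_combination (K / η * Cp p) * h3
  calc volume E ≤ volume (A0 ∪ ⋃ j ∈ Finset.Icc 1 J, A j) := measure_mono hcover
    _ ≤ volume A0 + volume (⋃ j ∈ Finset.Icc 1 J, A j) := measure_union_le _ _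
    _ ≤ volume A0 + ∑ j ∈ Finset.Icc 1 J, volume (A j) := by
        gcongr
        exact measure_biUnion_finset_le _ _
    _ ≤ ENNReal.ofReal X + ∑ j ∈ Finset.Icc 1 J, ENNReal.ofReal (K / η * X * r ^ j) := by
        gcongr with j hj
        exact hvj j hj
    _ = ENNReal.ofReal (X + ∑ j ∈ Finset.Icc 1 J, K / η * X * r ^ j) := by
        rw [ENNReal.ofReal_add hX0 (Finset.sum_nonneg fun j _ => by positivity),
          ENNReal.ofReal_sum_of_nonneg (fun j _ => by positivity)]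
    _ ≤ ENNReal.ofReal (X * (1 + K / η * (1 / (1 - r)))) := by
        apply ENNReal.ofReal_le_ofReal
        rw [← Finset.mul_sum]
        have := geom_bound hr0 hr1 J
        have h4 : 0 ≤ K / η * X := by positivity
        nlinarith

end Pool.Agent.Helper39.BR
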