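import Mathlib
set_option autoImplicit false
open Complex MeasureTheory Metric Set Filter Topology
open scoped Real ENNReal ComplexConjugate NNReal

/-! Local exponential estimates for functions with values in a strip of width `π`. -/

namespace Pool.Agent.Helper39.BR

theorem re_exp_ge {q : ℝ} (hq : |q| < 1) {v : ℂ} {s : ℝ} (hv : |v.im - s| ≤ π / 2) :
    Real.exp (q * v.re) * Real.cos (|q| * (π / 2)) ≤ (Complex.exp (q * (v - s * I))).re := by
  rw [Complex.exp_re]
  have h1 : (q * (v - s * I) : ℂ).re = q * v.re := by simp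
  have h2 : (q * (v - s * I) : ℂ).im = q * (v.im - s) := by simp
  rw [h1, h2]
  apply mul_le_mul_of_nonneg_left _ (Real.exp_pos _).le
  rw [← Real.cos_abs (q * (v.im - s))]
  apply Real.cos_le_cos_of_nonneg_of_le_pi (abs_nonneg _)
  · have := Real.pi_pos
    have h3 := abs_nonneg q
    nlinarith
  · rw [abs_mul]
    apply mul_le_mul_of_nonneg_left hv (abs_nonneg _)

theorem poisson_exp {q : ℝ} (hq : |q| < 1) {V : ℂ → ℂ} (hV : DifferentiableOn ℂ V (ball 0 1))
    {s : ℝ} (hs : ∀ ζ ∈ ball (0:ℂ) 1, |(V ζ).im - s| ≤ π / 2) {ρ : ℝ} (hρ1 : ρ < 1)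
    {z : ℂ} (hz : z ∈ ball (0:ℂ) ρ) :
    (∫ θ in (0:ℝ)..(2 * π), poissonKernel 0 z (circleMap 0 ρ θ) *
      Real.exp (q * (V (circleMap 0 ρ θ) - V z).re)) ≤ 2 * π / Real.cos (|q| * (π / 2)) := by
  have hρ : 0 < ρ := pos_of_mem_ball hz
  have hsub : closedBall (0:ℂ) ρ ⊆ ball 0 1 := closedBall_subset_ball hρ1
  have hcos : 0 < Real.cos (|q| * (π / 2)) := by
    apply Real.cos_pos_of_mem_Ioo
    have := Real.pi_pos
    have h3 := abs_nonneg q
    constructor <;> nlinarith
  set F : ℂ → ℂ := fun ζ => Complex.exp (q * (V ζ - s * I)) with hF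
  have hFd : DifferentiableOn ℂ F (closedBall 0 ρ) := by
    have := hV.mono hsub
    rw [hF]
    fun_prop
  have hdc : DiffContOnCl ℂ F (ball 0 ρ) := (hFd.mono closure_ball_subset_closedBall).diffContOnCl
  have h1 := hdc.circleAverage_poissonKernel_smul hz
  rw [Real.circleAverage_def] at h1
  have hPc : Continuous (fun θ : ℝ => poissonKernel 0 z (circleMap 0 ρ θ)) := by
    unfold poissonKernel
    apply Continuous.div
    · fun_prop
    · fun_prop
    · intro θ h'
      have h2 := pow_eq_zero_iff (two_ne_zero) |>.mp h'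
      rw [norm_eq_zero, sub_zero, sub_zero, sub_eq_zero] at h2
      rw [← h2] at hz
      simp [abs_of_pos hρ] at hz
  have hPpos : ∀ θ : ℝ, 0 ≤ poissonKernel 0 z (circleMap 0 ρ θ) := by
    intro θ
    unfold poissonKernel
    apply div_nonneg _ (by positivity)
    rw [mem_ball, dist_zero_right] at hz
    simp only [sub_zero, norm_circleMap_zero, abs_of_pos hρ]
    nlinarith [norm_nonneg z]
  have hVc : Continuous (fun θ : ℝ => V (circleMap 0 ρ θ)) := by
    apply (hV.continuousOn).comp_continuous (continuous_circleMap 0 ρ)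
    intro θ
    apply hsub
    exact sphere_subset_closedBall (circleMap_mem_sphere 0 hρ.le θ)
  have hFc : Continuous (fun θ : ℝ => F (circleMap 0 ρ θ)) :=
    Complex.continuous_exp.comp (continuous_const.mul (hVc.sub continuous_const))
  have hEc : Continuous (fun θ : ℝ => Real.exp (q * (V (circleMap 0 ρ θ)).re)) :=
    Real.continuous_exp.comp (continuous_const.mul (Complex.continuous_re.comp hVc))
  -- real part
  have h2 : (∫ θ in (0:ℝ)..(2 * π), poissonKernel 0 z (circleMap 0 ρ θ) * (F (circleMap 0 ρ θ)).re)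
      = 2 * π * (F z).re := by
    have h3 : (∫ θ in (0:ℝ)..(2 * π), poissonKernel 0 z (circleMap 0 ρ θ) • F (circleMap 0 ρ θ)) =
        ((2 * π : ℝ) : ℂ) * F z := by
      have h4 : ((2 * π)⁻¹ : ℝ) • (∫ θ in (0:ℝ)..(2 * π),
          (poissonKernel 0 z • F) (circleMap 0 ρ θ)) = F z := h1
      have h5 : (2 * π : ℝ) ≠ 0 := by positivity
      rw [inv_smul_eq_iff₀ h5] at h4
      rw [← Complex.real_smul, ← h4]
      rfl
    have h6 := congrArg Complex.re h3
    rw [Complex.re_ofReal_mul] at h6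
    rw [← h6]
    have h7 := Complex.reCLM.intervalIntegral_comp_comm (a := 0) (b := 2 * π) (μ := volume)
      (f := fun θ : ℝ => poissonKernel 0 z (circleMap 0 ρ θ) • F (circleMap 0 ρ θ))
      ((hPc.smul hFc).intervalIntegrable _ _)
    simp only [Complex.reCLM_apply] at h7
    rw [← h7]
    congr 1
    funext θ
    simp
  have hzz : z ∈ ball (0:ℂ) 1 := hsub (ball_subset_closedBall hz)
  have h3 : (F z).re ≤ Real.exp (q * (V z).re) := by
    calc (F z).re ≤ ‖F z‖ := Complex.re_le_norm _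
      _ = Real.exp (q * (V z).re) := by
        simp only [hF]
        rw [Complex.norm_exp]
        congr 1
        simp
  have h4 : Real.cos (|q| * (π / 2)) * (∫ θ in (0:ℝ)..(2 * π),
      poissonKernel 0 z (circleMap 0 ρ θ) * Real.exp (q * (V (circleMap 0 ρ θ)).re)) ≤
      2 * π * Real.exp (q * (V z).re) := by
    calc _ = ∫ θ in (0:ℝ)..(2 * π), Real.cos (|q| * (π / 2)) *
        (poissonKernel 0 z (circleMap 0 ρ θ) * Real.exp (q * (V (circleMap 0 ρ θ)).re)) := by
          rw [intervalIntegral.integral_const_mul]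
      _ ≤ ∫ θ in (0:ℝ)..(2 * π), poissonKernel 0 z (circleMap 0 ρ θ) * (F (circleMap 0 ρ θ)).re := by
          apply intervalIntegral.integral_mono_on Real.two_pi_pos.le
          · exact (continuous_const.mul (hPc.mul hEc)).intervalIntegrable _ _
          · exact (hPc.mul (Complex.continuous_re.comp hFc)).intervalIntegrable _ _
          · intro θ _
            have h5 := re_exp_ge hq (hs (circleMap 0 ρ θ)
              (hsub (sphere_subset_closedBall (circleMap_mem_sphere 0 hρ.le θ))))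
            calc _ = poissonKernel 0 z (circleMap 0 ρ θ) *
                (Real.exp (q * (V (circleMap 0 ρ θ)).re) * Real.cos (|q| * (π / 2))) := by ring
              _ ≤ _ := mul_le_mul_of_nonneg_left h5 (hPpos θ)
      _ = 2 * π * (F z).re := h2
      _ ≤ _ := by gcongr
  have h5 : (∫ θ in (0:ℝ)..(2 * π), poissonKernel 0 z (circleMap 0 ρ θ) *
      Real.exp (q * (V (circleMap 0 ρ θ) - V z).re)) =
      Real.exp (-(q * (V z).re)) * ∫ θ in (0:ℝ)..(2 * π),
      poissonKernel 0 z (circleMap 0 ρ θ) * Real.exp (q * (V (circleMap 0 ρ θ)).re) := by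
    rw [← intervalIntegral.integral_const_mul]
    congr 1
    funext θ
    rw [Complex.sub_re, mul_sub, sub_eq_add_neg, Real.exp_add]
    ring
  rw [h5, le_div_iff₀ hcos]
  calc _ = Real.exp (-(q * (V z).re)) * (Real.cos (|q| * (π / 2)) * (∫ θ in (0:ℝ)..(2 * π),
      poissonKernel 0 z (circleMap 0 ρ θ) * Real.exp (q * (V (circleMap 0 ρ θ)).re))) := by ring
    _ ≤ Real.exp (-(q * (V z).re)) * (2 * π * Real.exp (q * (V z).re)) := by gcongr
    _ = 2 * π := by
      rw [Real.exp_neg]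
      have := (Real.exp_pos (q * (V z).re)).ne'
      field_simp

/-- lower bound for the Poisson kernel on the arc -/
theorem pk_ge {ρ t : ℝ} (hρ : 1 / 2 ≤ ρ) (hρ1 : ρ < 1) (ht : 2 * (1 - ρ) ≤ t) (ht1 : t ≤ 1)
    {x : ℂ} (hx : ‖x‖ = 1) {θ : ℝ} (hθ : ‖1 - x * Complex.exp (θ * I)‖ ≤ 2 * t) :
    1 / (36 * t) ≤ poissonKernel 0 ((1 - t : ℝ) * conj x) (circleMap 0 ρ θ) := by
  have ht0 : 0 < t := by linarith
  have hρ0 : 0 < ρ := by linarith
  have hxx : conj x * x = 1 := by
    rw [mul_comm, Complex.mul_conj, Complex.normSq_eq_norm_sq, hx]; simp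
  have h1 : ‖circleMap 0 ρ θ - (1 - t : ℝ) * conj x‖ ≤ 3 * t := by
    have h2 : circleMap 0 ρ θ - (1 - t : ℝ) * conj x =
        ((ρ - (1 - t) : ℝ) : ℂ) * Complex.exp (θ * I) -
        ((1 - t : ℝ) : ℂ) * conj x * (1 - x * Complex.exp (θ * I)) := by
      rw [circleMap_zero]
      push_cast
      linear_combination (-((1 - t : ℂ)) * Complex.exp (θ * I)) * hxx
    rw [h2]
    calc _ ≤ ‖((ρ - (1 - t) : ℝ) : ℂ) * Complex.exp (θ * I)‖ +
        ‖((1 - t : ℝ) : ℂ) * conj x * (1 - x * Complex.exp (θ * I))‖ := norm_sub_le _ _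
      _ ≤ t + 1 * (2 * t) := by
        apply add_le_add
        · rw [norm_mul, Complex.norm_exp_ofReal_mul_I, mul_one, Complex.norm_real, Real.norm_eq_abs,
            abs_le]
          constructor <;> linarith
        · rw [norm_mul, norm_mul, RCLike.norm_conj, hx, mul_one, Complex.norm_real, Real.norm_eq_abs]
          apply mul_le_mul _ hθ (norm_nonneg _) one_pos.le
          rw [abs_le]
          constructor <;> linarith
      _ = 3 * t := by ring
  have hlow : t / 4 ≤ ρ ^ 2 - (1 - t) ^ 2 := by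
    have : ρ ^ 2 - (1 - t) ^ 2 = (ρ - (1 - t)) * (ρ + (1 - t)) := by ring
    rw [this]
    have h3 : t / 2 ≤ ρ - (1 - t) := by linarith
    have h4 : 1 / 2 ≤ ρ + (1 - t) := by linarith
    nlinarith
  have hne : circleMap 0 ρ θ - (1 - t : ℝ) * conj x ≠ 0 := by
    intro h'
    have h3 : ‖circleMap 0 ρ θ‖ = ‖((1 - t : ℝ) : ℂ) * conj x‖ := by
      rw [sub_eq_zero] at h'
      rw [h']
    rw [norm_circleMap_zero, norm_mul, RCLike.norm_conj, hx, mul_one, Complex.norm_real,
      Real.norm_eq_abs, abs_of_pos hρ0, abs_of_nonneg (by linarith)] at h3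
    linarith
  have hpos : 0 < ‖circleMap 0 ρ θ - (1 - t : ℝ) * conj x‖ := norm_pos_iff.mpr hne
  unfold poissonKernel
  rw [sub_zero, sub_zero, norm_circleMap_zero, norm_mul, RCLike.norm_conj, hx, mul_one,
    Complex.norm_real, Real.norm_eq_abs, sq_abs, sq_abs, div_le_div_iff₀ (by positivity) (by positivity)]
  have h4 : ‖circleMap 0 ρ θ - (1 - t : ℝ) * conj x‖ ^ 2 ≤ 9 * t ^ 2 := by nlinarith
  calc _ ≤ 9 * t ^ 2 := by linarith
    _ = t / 4 * (36 * t) := by ring
    _ ≤ _ := by gcongr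

theorem exp_norm_le (p : ℝ) (hp : 0 < p) (w : ℂ) (hw : |w.im| ≤ π) :
    Real.exp (p * ‖w‖) ≤ Real.exp (p * π) * (Real.exp (p * w.re) + Real.exp (-p * w.re)) := by
  have h1 : ‖w‖ ≤ |w.re| + π := by
    calc ‖w‖ ≤ |w.re| + |w.im| := Complex.norm_le_abs_re_add_abs_im w
      _ ≤ _ := by gcongr
  have h2 : Real.exp (p * |w.re|) ≤ Real.exp (p * w.re) + Real.exp (-p * w.re) := by
    rcases abs_cases w.re with ⟨h, _⟩ | ⟨h, _⟩
    · rw [h]; linarith [Real.exp_pos (-p * w.re)]
    · rw [h, show p * -w.re = -p * w.re by ring]; linarith [Real.exp_pos (p * w.re)]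
  calc Real.exp (p * ‖w‖) ≤ Real.exp (p * π + p * |w.re|) := by
        apply Real.exp_le_exp.mpr
        nlinarith
    _ = Real.exp (p * π) * Real.exp (p * |w.re|) := Real.exp_add _ _
    _ ≤ _ := by gcongr

/-- the arc -/
def arc (x : ℂ) (t : ℝ) : Set ℝ := {θ | ‖1 - x * Complex.exp (θ * I)‖ ≤ 2 * t}

theorem measurableSet_arc (x : ℂ) (t : ℝ) : MeasurableSet (arc x t) := by
  apply IsClosed.measurableSet
  exact isClosed_le (by fun_prop) continuous_const

theorem local_one {q : ℝ} (hq : |q| < 1) {V : ℂ → ℂ} (hV : DifferentiableOn ℂ V (ball 0 1))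
    {s : ℝ} (hs : ∀ ζ ∈ ball (0:ℂ) 1, |(V ζ).im - s| ≤ π / 2) {ρ t : ℝ} (hρ : 1 / 2 ≤ ρ)
    (hρ1 : ρ < 1) (ht : 2 * (1 - ρ) ≤ t) (ht1 : t ≤ 1) {x : ℂ} (hx : ‖x‖ = 1) :
    ∫⁻ θ in Ioc 0 (2 * π) ∩ arc x t, ENNReal.ofReal
      (Real.exp (q * (V (circleMap 0 ρ θ) - V ((1 - t : ℝ) * conj x)).re)) ≤
      ENNReal.ofReal (72 * π * t / Real.cos (|q| * (π / 2))) := by
  have ht0 : 0 < t := by linarith
  have hρ0 : 0 < ρ := by linarith
  set z : ℂ := (1 - t : ℝ) * conj x with hz
  have hzb : z ∈ ball (0:ℂ) ρ := by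
    rw [mem_ball, dist_zero_right, hz, norm_mul, RCLike.norm_conj, hx, mul_one, Complex.norm_real,
      Real.norm_eq_abs, abs_of_nonneg (by linarith)]
    linarith
  have hmain := poisson_exp hq hV hs hρ1 hzb
  have hsub : closedBall (0:ℂ) ρ ⊆ ball 0 1 := closedBall_subset_ball hρ1
  have hVc : Continuous (fun θ : ℝ => V (circleMap 0 ρ θ)) := by
    apply (hV.continuousOn).comp_continuous (continuous_circleMap 0 ρ)
    intro θ
    apply hsub
    exact sphere_subset_closedBall (circleMap_mem_sphere 0 hρ0.le θ)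
  have hPc : Continuous (fun θ : ℝ => poissonKernel 0 z (circleMap 0 ρ θ)) := by
    unfold poissonKernel
    apply Continuous.div
    · fun_prop
    · fun_prop
    · intro θ h'
      have h2 := pow_eq_zero_iff (two_ne_zero) |>.mp h'
      rw [norm_eq_zero, sub_zero, sub_zero, sub_eq_zero] at h2
      rw [← h2] at hzb
      simp [abs_of_pos hρ0] at hzb
  have hPpos : ∀ θ : ℝ, 0 ≤ poissonKernel 0 z (circleMap 0 ρ θ) := by
    intro θ
    unfold poissonKernel
    apply div_nonneg _ (by positivity)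
    rw [mem_ball, dist_zero_right] at hzb
    simp only [sub_zero, norm_circleMap_zero, abs_of_pos hρ0]
    nlinarith [norm_nonneg z]
  have hEc : Continuous (fun θ : ℝ => Real.exp (q * (V (circleMap 0 ρ θ) - V z).re)) :=
    Real.continuous_exp.comp (continuous_const.mul
      (Complex.continuous_re.comp (hVc.sub continuous_const)))
  have hkc : Continuous (fun θ : ℝ => poissonKernel 0 z (circleMap 0 ρ θ) *
      Real.exp (q * (V (circleMap 0 ρ θ) - V z).re)) := hPc.mul hEc
  have hlint : ∫⁻ θ in Ioc 0 (2 * π), ENNReal.ofReal (poissonKernel 0 z (circleMap 0 ρ θ) *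
      Real.exp (q * (V (circleMap 0 ρ θ) - V z).re)) ≤
      ENNReal.ofReal (2 * π / Real.cos (|q| * (π / 2))) := by
    rw [← ofReal_integral_eq_lintegral_ofReal]
    · apply ENNReal.ofReal_le_ofReal
      rw [← intervalIntegral.integral_of_le Real.two_pi_pos.le]
      exact hmain
    · exact (intervalIntegrable_iff_integrableOn_Ioc_of_le Real.two_pi_pos.le).mp
        (hkc.intervalIntegrable _ _)
    · exact Eventually.of_forall fun θ => mul_nonneg (hPpos θ) (Real.exp_pos _).le
  calc ∫⁻ θ in Ioc 0 (2 * π) ∩ arc x t,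
          ENNReal.ofReal (Real.exp (q * (V (circleMap 0 ρ θ) - V z).re))
      ≤ ∫⁻ θ in Ioc 0 (2 * π) ∩ arc x t, ENNReal.ofReal (36 * t) *
        ENNReal.ofReal (poissonKernel 0 z (circleMap 0 ρ θ) *
      Real.exp (q * (V (circleMap 0 ρ θ) - V z).re)) := by
        apply setLIntegral_mono
        · exact (hkc.measurable.ennreal_ofReal).const_mul _
        rintro θ ⟨_, hθ⟩
        rw [← ENNReal.ofReal_mul (by positivity)]
        apply ENNReal.ofReal_le_ofReal
        have h1 := pk_ge hρ hρ1 ht ht1 hx hθ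
        rw [div_le_iff₀ (by positivity)] at h1
        calc Real.exp (q * (V (circleMap 0 ρ θ) - V z).re) =
            1 * Real.exp (q * (V (circleMap 0 ρ θ) - V z).re) := by ring
          _ ≤ (poissonKernel 0 z (circleMap 0 ρ θ) * (36 * t)) *
            Real.exp (q * (V (circleMap 0 ρ θ) - V z).re) := by gcongr
          _ = _ := by ring
    _ = ENNReal.ofReal (36 * t) * ∫⁻ θ in Ioc 0 (2 * π) ∩ arc x t,
        ENNReal.ofReal (poissonKernel 0 z (circleMap 0 ρ θ) *
      Real.exp (q * (V (circleMap 0 ρ θ) - V z).re)) := by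
        rw [lintegral_const_mul' _ _ ENNReal.ofReal_ne_top]
    _ ≤ ENNReal.ofReal (36 * t) * ∫⁻ θ in Ioc 0 (2 * π),
        ENNReal.ofReal (poissonKernel 0 z (circleMap 0 ρ θ) *
      Real.exp (q * (V (circleMap 0 ρ θ) - V z).re)) := by
        gcongr
        exact inter_subset_left
    _ ≤ ENNReal.ofReal (36 * t) * ENNReal.ofReal (2 * π / Real.cos (|q| * (π / 2))) := by gcongr
    _ = ENNReal.ofReal (72 * π * t / Real.cos (|q| * (π / 2))) := by
        rw [← ENNReal.ofReal_mul (by positivity)]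
        congr 1
        ring

/-- the local estimate -/
theorem local_est {p : ℝ} (hp0 : 0 < p) (hp1 : p < 1) {U : ℂ → ℂ}
    (hU : DifferentiableOn ℂ U (ball 0 1)) {e : ℂ} (he : ‖e‖ = 1)
    {s : ℝ} (hs : ∀ ζ ∈ ball (0:ℂ) 1, |(e * U ζ).im - s| ≤ π / 2) {ρ t : ℝ} (hρ : 1 / 2 ≤ ρ)
    (hρ1 : ρ < 1) (ht : 2 * (1 - ρ) ≤ t) (ht1 : t ≤ 1) {x : ℂ} (hx : ‖x‖ = 1) :
    ∫⁻ θ in Ioc 0 (2 * π) ∩ arc x t, ENNReal.ofReal
      (Real.exp (p * ‖U (circleMap 0 ρ θ) - U ((1 - t : ℝ) * conj x)‖)) ≤
      ENNReal.ofReal (144 * π * Real.exp (p * π) / Real.cos (p * (π / 2)) * t) := by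
  have ht0 : 0 < t := by linarith
  have hρ0 : 0 < ρ := by linarith
  set z : ℂ := (1 - t : ℝ) * conj x with hz
  set V : ℂ → ℂ := fun ζ => e * U ζ with hV
  have hVd : DifferentiableOn ℂ V (ball 0 1) := hU.const_mul e
  have habs : |p| = p := abs_of_pos hp0
  have habs2 : |(-p)| = p := by rw [abs_neg, habs]
  have h1 := local_one (q := p) (by rw [habs]; exact hp1) hVd hs hρ hρ1 ht ht1 hx
  have h2 := local_one (q := -p) (by rw [habs2]; exact hp1) hVd hs hρ hρ1 ht ht1 hx
  rw [habs] at h1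
  rw [habs2] at h2
  have hsub : closedBall (0:ℂ) ρ ⊆ ball 0 1 := closedBall_subset_ball hρ1
  have hVc : Continuous (fun θ : ℝ => V (circleMap 0 ρ θ)) := by
    apply (hVd.continuousOn).comp_continuous (continuous_circleMap 0 ρ)
    intro θ
    apply hsub
    exact sphere_subset_closedBall (circleMap_mem_sphere 0 hρ0.le θ)
  have hEc : ∀ q : ℝ, Continuous (fun θ : ℝ => Real.exp (q * (V (circleMap 0 ρ θ) - V z).re)) :=
    fun q => Real.continuous_exp.comp (continuous_const.mul
      (Complex.continuous_re.comp (hVc.sub continuous_const)))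
  have hzb : z ∈ ball (0:ℂ) 1 := by
    rw [mem_ball, dist_zero_right, hz, norm_mul, RCLike.norm_conj, hx, mul_one, Complex.norm_real,
      Real.norm_eq_abs, abs_of_nonneg (by linarith)]
    linarith
  have hcos : 0 < Real.cos (p * (π / 2)) := by
    apply Real.cos_pos_of_mem_Ioo
    have := Real.pi_pos
    constructor <;> nlinarith
  calc ∫⁻ θ in Ioc 0 (2 * π) ∩ arc x t,
          ENNReal.ofReal (Real.exp (p * ‖U (circleMap 0 ρ θ) - U z‖))
      ≤ ∫⁻ θ in Ioc 0 (2 * π) ∩ arc x t, ENNReal.ofReal (Real.exp (p * π)) *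
        (ENNReal.ofReal (Real.exp (p * (V (circleMap 0 ρ θ) - V z).re)) +
          ENNReal.ofReal (Real.exp (-p * (V (circleMap 0 ρ θ) - V z).re))) := by
        apply setLIntegral_mono
        · exact (((hEc p).measurable.ennreal_ofReal).add
            ((hEc (-p)).measurable.ennreal_ofReal)).const_mul _
        rintro θ ⟨_, hθ⟩
        rw [← ENNReal.ofReal_add (Real.exp_pos _).le (Real.exp_pos _).le,
          ← ENNReal.ofReal_mul (Real.exp_pos _).le]
        apply ENNReal.ofReal_le_ofReal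
        have h3 : ‖U (circleMap 0 ρ θ) - U z‖ = ‖V (circleMap 0 ρ θ) - V z‖ := by
          simp only [hV]
          rw [← mul_sub, norm_mul, he, one_mul]
        rw [h3]
        apply exp_norm_le p hp0
        have h4 := hs (circleMap 0 ρ θ)
              (hsub (sphere_subset_closedBall (circleMap_mem_sphere 0 hρ0.le θ)))
        have h5 := hs z hzb
        rw [Complex.sub_im]
        rw [abs_le] at h4 h5 ⊢
        constructor <;> linarith [h4.1, h4.2, h5.1, h5.2]
    _ = ENNReal.ofReal (Real.exp (p * π)) *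
        ((∫⁻ θ in Ioc 0 (2 * π) ∩ arc x t,
          ENNReal.ofReal (Real.exp (p * (V (circleMap 0 ρ θ) - V z).re))) +
          ∫⁻ θ in Ioc 0 (2 * π) ∩ arc x t,
          ENNReal.ofReal (Real.exp (-p * (V (circleMap 0 ρ θ) - V z).re))) := by
        rw [lintegral_const_mul' _ _ ENNReal.ofReal_ne_top, lintegral_add_left]
        exact (hEc p).measurable.ennreal_ofReal
    _ ≤ ENNReal.ofReal (Real.exp (p * π)) *
        (ENNReal.ofReal (72 * π * t / Real.cos (p * (π / 2))) +
          ENNReal.ofReal (72 * π * t / Real.cos (p * (π / 2)))) := by gcongr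
    _ = _ := by
        rw [← ENNReal.ofReal_add (by positivity) (by positivity), ← ENNReal.ofReal_mul (by positivity)]
        congr 1
        ring

end Pool.Agent.Helper39.BR
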