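import Pool.Agent.Helper39.BR.Level2
set_option autoImplicit false
open Complex MeasureTheory Metric Set Filter Topology
open scoped Real ENNReal ComplexConjugate NNReal

/-! Summation over the levels. -/

namespace Pool.Agent.Helper39.BR

/-- layer cake, pointwise -/
theorem layer {a S s : ℝ} (ha : 0 < a) (hS : 0 < S) (hs0 : 0 ≤ s) (hsS : s ≤ S) :
    Real.exp (a * s ^ 2 / S) ≤ Real.exp (a / S) +
      ∑ k ∈ Finset.Icc 1 ⌊S⌋₊, (Real.exp (a * ((k:ℝ) + 1) ^ 2 / S) - Real.exp (a * (k:ℝ) ^ 2 / S)) *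
        (if (k:ℝ) ≤ s then 1 else 0) := by
  set n := ⌊s⌋₊ with hn
  have hnS : n ≤ ⌊S⌋₊ := Nat.floor_mono hsS
  have h1 : ∑ k ∈ Finset.Icc 1 ⌊S⌋₊, (Real.exp (a * ((k:ℝ) + 1) ^ 2 / S) -
      Real.exp (a * (k:ℝ) ^ 2 / S)) * (if (k:ℝ) ≤ s then 1 else 0) =
      ∑ k ∈ Finset.Icc 1 n, (Real.exp (a * ((k:ℝ) + 1) ^ 2 / S) -
      Real.exp (a * (k:ℝ) ^ 2 / S)) := by
    have h2 : Finset.Icc 1 n = (Finset.Icc 1 ⌊S⌋₊).filter (fun k : ℕ => (k:ℝ) ≤ s) := by
      ext k
      simp only [Finset.mem_Icc, Finset.mem_filter]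
      constructor
      · rintro ⟨h3, h4⟩
        exact ⟨⟨h3, h4.trans hnS⟩, (Nat.le_floor_iff hs0).mp h4⟩
      · rintro ⟨⟨h3, _⟩, h5⟩
        exact ⟨h3, Nat.le_floor h5⟩
    rw [h2, Finset.sum_filter]
    apply Finset.sum_congr rfl
    intro k _
    split_ifs <;> simp
  have h3 : ∀ N : ℕ, ∑ k ∈ Finset.Icc 1 N, (Real.exp (a * ((k:ℝ) + 1) ^ 2 / S) -
      Real.exp (a * (k:ℝ) ^ 2 / S)) = Real.exp (a * ((N:ℝ) + 1) ^ 2 / S) - Real.exp (a / S) := by
    intro N
    induction N with
    | zero => simp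
    | succ N ih =>
      rw [Finset.sum_Icc_succ_top (by omega), ih]
      push_cast
      ring
  rw [h1, h3 n]
  have h4 : s < n + 1 := Nat.lt_floor_add_one s
  have h5 : Real.exp (a * s ^ 2 / S) ≤ Real.exp (a * ((n:ℝ) + 1) ^ 2 / S) := by
    apply Real.exp_le_exp.mpr
    gcongr
  linarith

/-- the weight of level `k` -/
theorem weight_le {a S : ℝ} {k : ℝ} (ha : 0 < a) (ha1 : a < 1) (hS : 1 ≤ S) (hk1 : 1 ≤ k)
    (hkS : k ≤ S) : Real.exp (a * (k + 1) ^ 2 / S) - Real.exp (a * k ^ 2 / S) ≤
      Real.exp (a * k + 3) * (3 * k / S) := by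
  have hS0 : 0 < S := by linarith
  have h1 : Real.exp (a * k ^ 2 / S) = Real.exp (a * (k + 1) ^ 2 / S) *
      Real.exp (-(a * (2 * k + 1) / S)) := by
    rw [← Real.exp_add]
    congr 1
    field_simp
    ring
  have h2 : 1 - a * (2 * k + 1) / S ≤ Real.exp (-(a * (2 * k + 1) / S)) := by
    have := Real.add_one_le_exp (-(a * (2 * k + 1) / S))
    linarith
  have h3 : Real.exp (a * (k + 1) ^ 2 / S) ≤ Real.exp (a * k + 3) := by
    apply Real.exp_le_exp.mpr
    rw [div_le_iff₀ hS0]
    have h4 : a * (k + 1) ^ 2 = a * k * k + a * (2 * k + 1) := by ring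
    have h5 : a * k * k ≤ a * k * S := by gcongr
    have h6 : a * (2 * k + 1) ≤ 3 * S := by nlinarith
    nlinarith
  have h7 : 0 ≤ Real.exp (a * (k + 1) ^ 2 / S) := (Real.exp_pos _).le
  have h8 : a * (2 * k + 1) / S ≤ 3 * k / S := by
    apply div_le_div_of_nonneg_right _ hS0.le
    nlinarith
  have h9 : 0 ≤ a * (2 * k + 1) / S := by positivity
  calc Real.exp (a * (k + 1) ^ 2 / S) - Real.exp (a * k ^ 2 / S) =
        Real.exp (a * (k + 1) ^ 2 / S) * (1 - Real.exp (-(a * (2 * k + 1) / S))) := by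
        rw [h1]; ring
    _ ≤ Real.exp (a * (k + 1) ^ 2 / S) * (a * (2 * k + 1) / S) := by
        gcongr
        linarith
    _ ≤ Real.exp (a * k + 3) * (3 * k / S) := by
        apply mul_le_mul h3 h8 h9 (Real.exp_pos _).le

theorem partB (K a : ℝ) (ha0 : 0 < a) (ha1 : a < 1) :
    ∃ C : ℝ, ∀ ρ : ℝ, 0 < ρ → ρ < 1 → ∀ (m : Measure ℂ) (g U H : ℂ → ℂ), Dec K m g U H →
      (∫ θ in (0:ℝ)..(2 * π),
        Real.exp (a * ‖H (circleMap 0 ρ θ)‖ ^ 2 / Real.log (1 / (1 - ρ ^ 2)))) ≤ C := by
  set κ : ℝ := (1 - a) / 4 with hκ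
  have hκ0 : 0 < κ := by rw [hκ]; linarith
  have hκ1 : κ < 1 / 4 := by rw [hκ]; linarith
  set p : ℝ := 1 - κ with hp
  have hp0 : 0 < p := by rw [hp]; linarith
  have hp1 : p < 1 := by rw [hp]; linarith
  set b : ℝ := 1 - 2 * κ with hb
  have hba : 0 < b - a := by rw [hb, hκ]; linarith
  set CK : ℝ := K * (Real.log 13 + π) + 2 with hCK
  set G : ℝ := 1 / (1 - Real.exp (-((1 - p) * Real.log 2))) with hG
  have hlog20 : 0 < Real.log 2 := Real.log_pos (by norm_num)
  have hG0 : 0 < G := by
    have : Real.exp (-((1 - p) * Real.log 2)) < 1 := by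
      rw [Real.exp_lt_one_iff]
      nlinarith
    rw [hG]
    apply div_pos one_pos
    linarith
  set S0 : ℝ := Real.log (64 / 15) with hS0
  set T : ℝ := 1 / (1 - Real.exp (-(b - a))) with hT
  refine ⟨max (2 * π * Real.exp S0) (2 * π * Real.exp 1 +
    3 * Real.exp 3 * Cp p * Real.exp CK * (1 + K * G / κ) * T), ?_⟩
  intro ρ hρ0 hρ1 m g U H D
  have hK0 : 0 ≤ K := le_trans measureReal_nonneg D.mass
  have hCp := Cp_pos hp0 hp1
  set S : ℝ := Real.log (1 / (1 - ρ ^ 2)) with hS
  have h1ρ : 0 < 1 - ρ ^ 2 := by nlinarith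
  have hSpos : 0 < S := by
    apply Real.log_pos
    rw [lt_div_iff₀ h1ρ]
    nlinarith
  have hmem : ∀ θ : ℝ, circleMap 0 ρ θ ∈ ball (0:ℂ) 1 := by
    intro θ
    rw [mem_ball, dist_zero_right, norm_circleMap_zero, abs_of_pos hρ0]; exact hρ1
  have hHS : ∀ θ : ℝ, ‖H (circleMap 0 ρ θ)‖ ≤ S := by
    intro θ
    have := D.gol _ (hmem θ)
    rwa [norm_circleMap_zero, abs_of_pos hρ0] at this
  have hHc : Continuous (fun θ : ℝ => H (circleMap 0 ρ θ)) :=
    (D.diffH.continuousOn).comp_continuous (continuous_circleMap 0 ρ) hmem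
  have hFc : Continuous (fun θ : ℝ => Real.exp (a * ‖H (circleMap 0 ρ θ)‖ ^ 2 / S)) :=
    Real.continuous_exp.comp ((continuous_const.mul (hHc.norm.pow 2)).div_const S)
  by_cases hρ78 : ρ < 7 / 8
  · -- trivial range
    apply le_max_of_le_left
    have hSS : S ≤ S0 := by
      apply Real.log_le_log (by positivity)
      rw [div_le_div_iff₀ h1ρ (by norm_num)]
      nlinarith
    calc (∫ θ in (0:ℝ)..(2 * π), Real.exp (a * ‖H (circleMap 0 ρ θ)‖ ^ 2 / S)) ≤
          ∫ θ in (0:ℝ)..(2 * π), Real.exp S0 := by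
          apply intervalIntegral.integral_mono_on Real.two_pi_pos.le (hFc.intervalIntegrable _ _)
            (continuous_const.intervalIntegrable _ _)
          intro θ _
          apply Real.exp_le_exp.mpr
          rw [div_le_iff₀ hSpos]
          have h1 := hHS θ
          have h2 := norm_nonneg (H (circleMap 0 ρ θ))
          nlinarith
      _ = 2 * π * Real.exp S0 := by simp
  · rw [not_lt] at hρ78
    apply le_max_of_le_right
    have hS1 : 1 ≤ S := by
      rw [hS, Real.le_log_iff_exp_le (by positivity), le_div_iff₀ h1ρ]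
      have := Real.exp_one_lt_d9
      nlinarith
    set N := ⌊S⌋₊ with hN
    -- integrate the layer cake
    set w : ℕ → ℝ := fun k => Real.exp (a * ((k:ℝ) + 1) ^ 2 / S) - Real.exp (a * (k:ℝ) ^ 2 / S) with hw
    have hw0 : ∀ k, 0 ≤ w k := by
      intro k
      simp only [hw, sub_nonneg]
      apply Real.exp_le_exp.mpr
      gcongr
      linarith
    set E : ℕ → Set ℝ := fun k => {θ : ℝ | (k:ℝ) ≤ ‖H (circleMap 0 ρ θ)‖} with hE
    have hEm : ∀ k, MeasurableSet (E k) := fun k =>
      (isClosed_le continuous_const hHc.norm).measurableSet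
    set μ : Measure ℝ := volume.restrict (Ioc 0 (2 * π)) with hμ
    have hlayer : ∀ θ : ℝ, Real.exp (a * ‖H (circleMap 0 ρ θ)‖ ^ 2 / S) ≤ Real.exp (a / S) +
        ∑ k ∈ Finset.Icc 1 N, w k * (E k).indicator (fun _ => (1:ℝ)) θ := by
      intro θ
      have h1 := layer ha0 hSpos (norm_nonneg (H (circleMap 0 ρ θ))) (hHS θ)
      refine h1.trans (le_of_eq ?_)
      congr 1
    have hIint : ∀ k : ℕ, Integrable (fun θ => w k * (E k).indicator (fun _ => (1:ℝ)) θ) μ := by
      intro k
      exact ((integrable_const (1:ℝ)).indicator (hEm k)).const_mul _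
    have hint : (∫ θ in (0:ℝ)..(2 * π), Real.exp (a * ‖H (circleMap 0 ρ θ)‖ ^ 2 / S)) ≤
        2 * π * Real.exp (a / S) + ∑ k ∈ Finset.Icc 1 N, w k * μ.real (E k) := by
      rw [intervalIntegral.integral_of_le Real.two_pi_pos.le]
      calc ∫ θ in Ioc 0 (2 * π), Real.exp (a * ‖H (circleMap 0 ρ θ)‖ ^ 2 / S) ≤
          ∫ θ, (Real.exp (a / S) +
            ∑ k ∈ Finset.Icc 1 N, w k * (E k).indicator (fun _ => (1:ℝ)) θ) ∂μ := by
            apply integral_mono
            · exact (intervalIntegrable_iff_integrableOn_Ioc_of_le Real.two_pi_pos.le).mp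
                (hFc.intervalIntegrable _ _)
            · exact (integrable_const _).add (integrable_finsetSum _ fun k _ => hIint k)
            · intro θ; exact hlayer θ
        _ = _ := by
            rw [integral_add (integrable_const _) (integrable_finsetSum _ fun k _ => hIint k),
              integral_finsetSum _ (fun k _ => hIint k)]
            congr 1
            · rw [integral_const, smul_eq_mul, hμ]
              simp [Measure.real, Real.pi_pos.le]
            · apply Finset.sum_congr rfl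
              intro k _
              rw [integral_const_mul, integral_indicator_const _ (hEm k)]
              simp
    -- the level sets
    have hlev : ∀ k ∈ Finset.Icc 1 N, w k * μ.real (E k) ≤
        3 * Real.exp 3 * Cp p * Real.exp CK * (1 + K * G / κ) * (Real.exp (-(b - a))) ^ k := by
      intro k hk
      rw [Finset.mem_Icc] at hk
      have hk1 : (1:ℝ) ≤ k := by exact_mod_cast hk.1
      have hkS : (k:ℝ) ≤ S := (Nat.le_floor_iff hSpos.le).mp hk.2
      have hk0 : (0:ℝ) < k := by linarith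
      set η : ℝ := κ * k / S with hη
      have hη0 : 0 < η := by positivity
      have hη1 : η ≤ 1 := by
        rw [hη, div_le_one hSpos]
        nlinarith
      have h1 := level_set hp0 hp1 D hρ78 hρ1 (k:ℝ) hη0 hη1
      have h2 : μ.real (E k) ≤ Cp p * Real.exp (p * ((K * (Real.log 13 + π) + 2) +
          η * S)) * Real.exp (-(p * k)) * (1 + K / η * G) := by
        have h3 : μ (E k) = volume {θ : ℝ | θ ∈ Ioc 0 (2 * π) ∧ (k:ℝ) ≤ ‖H (circleMap 0 ρ θ)‖} := by
          rw [hμ, Measure.restrict_apply (hEm k)]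
          congr 1
          ext θ
          simp only [hE, mem_inter_iff, mem_ofPred_eq]
          tauto
        rw [Measure.real, h3]
        apply ENNReal.toReal_le_of_le_ofReal (by positivity)
        exact h1
      have h4 := weight_le ha0 ha1 hS1 hk1 hkS
      have h5 : Real.exp (p * ((K * (Real.log 13 + π) + 2) + η * S)) * Real.exp (-(p * k)) ≤
          Real.exp CK * Real.exp (-(b * k)) := by
        rw [← Real.exp_add, ← Real.exp_add]
        apply Real.exp_le_exp.mpr
        have h6 : η * S = κ * k := by rw [hη]; field_simp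
        rw [h6, ← hCK]
        have hCK0 : 0 ≤ CK := by
          have := Real.log_nonneg (show (1:ℝ) ≤ 13 by norm_num)
          rw [hCK]
          have := Real.pi_pos
          positivity
        rw [hb, hp]
        nlinarith [mul_nonneg hκ0.le hCK0, mul_nonneg (mul_nonneg hκ0.le hκ0.le) hk0.le]
      have h7 : 3 * (k:ℝ) / S * (1 + K / η * G) ≤ 3 * (1 + K * G / κ) := by
        have e1 : 3 * (k:ℝ) / S * (1 + K / η * G) = 3 * (k / S + K * G / κ) := by
          rw [hη]
          field_simp
        rw [e1]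
        gcongr
        rw [div_le_one hSpos]
        exact hkS
      calc w k * μ.real (E k) ≤ (Real.exp (a * k + 3) * (3 * k / S)) *
            (Cp p * Real.exp (p * ((K * (Real.log 13 + π) + 2) +
            η * S)) * Real.exp (-(p * k)) * (1 + K / η * G)) := by
            apply mul_le_mul h4 h2 measureReal_nonneg (by positivity)
        _ = Real.exp (a * k + 3) * Cp p * (Real.exp (p * ((K * (Real.log 13 + π) + 2) +
            η * S)) * Real.exp (-(p * k))) * (3 * k / S * (1 + K / η * G)) := by ring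
        _ ≤ Real.exp (a * k + 3) * Cp p * (Real.exp CK * Real.exp (-(b * k))) *
            (3 * (1 + K * G / κ)) := by gcongr
        _ = _ := by
            have e2 : Real.exp (-(b - a)) ^ k = Real.exp (a * k) * Real.exp (-(b * k)) := by
              rw [← Real.exp_nat_mul, ← Real.exp_add]
              congr 1
              ring
            rw [e2, Real.exp_add]
            ring
    calc (∫ θ in (0:ℝ)..(2 * π), Real.exp (a * ‖H (circleMap 0 ρ θ)‖ ^ 2 / S)) ≤ _ := hint
      _ ≤ 2 * π * Real.exp 1 + ∑ k ∈ Finset.Icc 1 N,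
          3 * Real.exp 3 * Cp p * Real.exp CK * (1 + K * G / κ) * (Real.exp (-(b - a))) ^ k := by
          apply add_le_add
          · gcongr
            rw [div_le_one hSpos]
            linarith
          · exact Finset.sum_le_sum hlev
      _ ≤ 2 * π * Real.exp 1 +
          3 * Real.exp 3 * Cp p * Real.exp CK * (1 + K * G / κ) * T := by
          rw [← Finset.mul_sum]
          gcongr
          apply geom_bound (Real.exp_pos _).le
          rw [Real.exp_lt_one_iff]
          linarith

end Pool.Agent.Helper39.BR
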