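import Pool.Agent.Helper39.Area.Exterior
import Pool.Agent.Helper39.BR.Sum
set_option autoImplicit false
open Complex MeasureTheory Metric Set Filter Topology
open scoped Real ENNReal ComplexConjugate NNReal

/-! The strong form of Marshall's conjecture for `log ψ' = log potential + strip function`. -/

namespace Pool.Agent.Helper39.BR

open Pool.Agent.Helper39.Area

theorem pot_small {K : ℝ} {m : Measure ℂ} {g : ℂ → ℂ} [IsFiniteMeasure m] (hK : m.real univ ≤ K)
    (hm : ∀ᵐ x ∂m, ‖x‖ = 1) (hg1 : ∀ᵐ x ∂m, ‖g x‖ ≤ 1) {ζ : ℂ} (hζ : ‖ζ‖ ≤ 1 / 2) :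
    ‖∫ x, g x * Complex.log (1 - x * ζ) ∂m‖ ≤ 3 / 2 * ‖ζ‖ * K := by
  calc _ ≤ 3 / 2 * ‖ζ‖ * m.real univ := by
        apply norm_integral_le_of_norm_le_const
        filter_upwards [hm, hg1] with x hx hgx
        have h1 : ‖-(x * ζ)‖ = ‖ζ‖ := by rw [norm_neg, norm_mul, hx, one_mul]
        have h2 := Complex.norm_log_one_add_half_le_self (z := -(x * ζ)) (by rw [h1]; exact hζ)
        rw [← sub_eq_add_neg, h1] at h2
        rw [norm_mul]
        calc _ ≤ 1 * ‖Complex.log (1 - x * ζ)‖ := by gcongr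
          _ ≤ _ := by rw [one_mul]; exact h2
    _ ≤ _ := by gcongr

/-- Theorem BR: the strong form of Marshall's conjecture, with a uniform constant and in the full
range `0 < a < 1`, when `log ψ'` is a logarithmic potential of a complex measure of bounded
variation plus a function with values in a strip of width `π`. -/
theorem boundedRotation (K a : ℝ) (ha0 : 0 < a) (ha1 : a < 1) :
    ∃ C : ℝ, ∀ R : ℝ, 1 < R → ∀ ψ h : ℂ → ℂ,
      DifferentiableOn ℂ ψ {z : ℂ | 1 < ‖z‖} →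
      Set.InjOn ψ {z : ℂ | 1 < ‖z‖} →
      (∃ b : ℂ, Filter.Tendsto (fun z => ψ z - z) (Bornology.cobounded ℂ) (nhds b)) →
      DifferentiableOn ℂ h {z : ℂ | 1 < ‖z‖} →
      (∀ z : ℂ, 1 < ‖z‖ → Complex.exp (h z) = deriv ψ z) →
      Filter.Tendsto h (Bornology.cobounded ℂ) (nhds 0) →
      ∀ (m : Measure ℂ) (g u : ℂ → ℂ), IsFiniteMeasure m → m.real Set.univ ≤ K →
      (∀ᵐ x ∂m, ‖x‖ = 1) → AEStronglyMeasurable g m → (∀ᵐ x ∂m, ‖g x‖ ≤ 1) →
      DifferentiableOn ℂ u {z : ℂ | 1 < ‖z‖} →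
      (∃ e : ℂ, ‖e‖ = 1 ∧ ∃ s : ℝ, ∀ z : ℂ, 1 < ‖z‖ → |(e * u z).im - s| ≤ π / 2) →
      (∀ z : ℂ, 1 < ‖z‖ → h z = (∫ x, g x * Complex.log (1 - x / z) ∂m) + u z) →
      (1 / (2 * π)) * ∫ θ in (0:ℝ)..(2 * π),
        Real.exp (a * ‖h ((R : ℂ) * Complex.exp ((θ : ℂ) * I))‖ ^ 2
          / Real.log (R ^ 2 / (R ^ 2 - 1))) ≤ C := by
  obtain ⟨C, hC⟩ := partB K a ha0 ha1
  refine ⟨1 / (2 * π) * C, ?_⟩
  intro R hR ψ h hψ hinj hb hh hexp hh0 m g u hfin hmass hcirc hmeas hbdd hu hstrip heq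
  have hR0 : 0 < R := by linarith
  obtain ⟨hdH, hgol⟩ := goluzin_disc hψ hinj hb hh hexp hh0
  -- the limit of `u`
  have hG0 : Tendsto (fun z : ℂ => ∫ x, g x * Complex.log (1 - x / z) ∂m)
      (Bornology.cobounded ℂ) (𝓝 0) := by
    have hinv : Tendsto (fun z : ℂ => ‖z⁻¹‖) (Bornology.cobounded ℂ) (𝓝 0) := by
      have := (tendsto_inv₀_cobounded (α := ℂ)).norm
      simpa using this
    have h1 : Tendsto (fun z : ℂ => 3 / 2 * ‖z⁻¹‖ * K) (Bornology.cobounded ℂ) (𝓝 0) := by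
      have := (hinv.const_mul (3 / 2)).mul_const K
      simpa using this
    apply squeeze_zero_norm' _ h1
    have h2 : ∀ᶠ z : ℂ in Bornology.cobounded ℂ, ‖z⁻¹‖ < 1 / 2 :=
      hinv.eventually_lt_const (by norm_num)
    filter_upwards [h2] with z hz
    have h3 := pot_small hmass hcirc hbdd (ζ := z⁻¹) hz.le
    simpa [div_eq_mul_inv] using h3
  have hext : ∀ᶠ z : ℂ in Bornology.cobounded ℂ, 1 < ‖z‖ :=
    tendsto_norm_cobounded_atTop.eventually_gt_atTop 1
  have hu0 : Tendsto u (Bornology.cobounded ℂ) (𝓝 0) := by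
    have h1 : Tendsto (fun z : ℂ => h z - ∫ x, g x * Complex.log (1 - x / z) ∂m)
        (Bornology.cobounded ℂ) (𝓝 0) := by
      simpa using hh0.sub hG0
    apply h1.congr'
    filter_upwards [hext] with z hz
    rw [heq z hz]; ring
  obtain ⟨e, he, s, hs⟩ := hstrip
  have hD : Dec K m g (toDisc 0 u) (toDisc 0 h) := by
    refine ⟨hfin, hmass, hcirc, hmeas, hbdd, toDisc_diff hu hu0, ⟨e, he, s, ?_⟩, hdH, ?_, hgol⟩
    · intro ζ hζ
      by_cases h0 : ζ = 0
      · subst h0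
        have h1 : Tendsto (fun z : ℂ => |(e * u z).im - s|) (Bornology.cobounded ℂ)
            (𝓝 (|(e * 0).im - s|)) := by
          apply Tendsto.abs
          apply Tendsto.sub_const
          exact (Complex.continuous_im.tendsto _).comp (hu0.const_mul e)
        have h2 : toDisc 0 u 0 = 0 := by simp [toDisc]
        rw [h2]
        apply le_of_tendsto h1
        filter_upwards [hext] with z hz
        exact hs z hz
      · have h1 : toDisc 0 u ζ = u ζ⁻¹ := by
          simp only [toDisc]; rw [if_neg h0]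
        rw [h1]
        exact hs _ (inv_mem hζ h0)
    · intro ζ hζ
      by_cases h0 : ζ = 0
      · subst h0
        simp [toDisc]
      · have h1 : toDisc 0 u ζ = u ζ⁻¹ := by
          simp only [toDisc]; rw [if_neg h0]
        have h2 : toDisc 0 h ζ = h ζ⁻¹ := by
          simp only [toDisc]; rw [if_neg h0]
        rw [h1, h2, heq _ (inv_mem hζ h0)]
        simp only [div_inv_eq_mul]
  rw [integral_transfer h a R hR]
  have hρ0 : 0 < R⁻¹ := inv_pos.mpr hR0
  have hρ1 : R⁻¹ < 1 := inv_lt_one_of_one_lt₀ hR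
  have := hC R⁻¹ hρ0 hρ1 m g _ _ hD
  simp only [circleMap_zero] at this
  gcongr

end Pool.Agent.Helper39.BR
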